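import Mathlib

/-!
# Upward local crossing number of bounded-degree outerplanar DAGs: definitions

A directed graph on `V` is a relation `A : V → V → Prop` (`A u v` = directed edge from `u` to `v`).
-/

namespace Pool.Agent.Helper4.UpLoc

/-! ### Definitions used in the final statement -/

/-- An upward drawing of a directed graph `A` on the vertex type `V`: vertices are distinct points
of the plane, every directed edge `(u,v)` is a Jordan arc from `pos u` to `pos v`, strictly
increasing in the second (the `y`-) coordinate, that contains no other vertex. -/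
structure UpwardDrawing {V : Type} (A : V → V → Prop) where
  pos : V → ℝ × ℝ
  pos_injective : Function.Injective pos
  arc : ∀ u v, A u v → unitInterval → ℝ × ℝ
  arc_continuous : ∀ u v (h : A u v), Continuous (arc u v h)
  arc_zero : ∀ u v (h : A u v), arc u v h 0 = pos u
  arc_one : ∀ u v (h : A u v), arc u v h 1 = pos v
  arc_upward : ∀ u v (h : A u v), StrictMono fun t => (arc u v h t).2
  arc_avoids : ∀ u v (h : A u v) (w : V), w ≠ u → w ≠ v → pos w ∉ Set.range (arc u v h)

/-- The crossings on the edge `e`: pairs `(e', p)` where `e' ≠ e` is an edge and `p` is a common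
point of the two edge curves other than a shared endpoint. -/
def UpwardDrawing.crossings {V : Type} {A : V → V → Prop} (D : UpwardDrawing A) (e : V × V)
    (he : A e.1 e.2) : Set ((V × V) × (ℝ × ℝ)) :=
  {q | ∃ hq : A q.1.1 q.1.2, q.1 ≠ e ∧ q.2 ∈ Set.range (D.arc e.1 e.2 he) ∧
    q.2 ∈ Set.range (D.arc q.1.1 q.1.2 hq) ∧
    ¬ ∃ w : V, (w = e.1 ∨ w = e.2) ∧ (w = q.1.1 ∨ w = q.1.2) ∧ q.2 = D.pos w}

/-- A drawing is `k`-planar if every edge is crossed at most `k` times. -/
def UpwardDrawing.IsKPlanar {V : Type} {A : V → V → Prop} (D : UpwardDrawing A) (k : ℕ) : Prop :=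
  ∀ (e : V × V) (he : A e.1 e.2), (D.crossings e he).encard ≤ k

/-- Outerplanarity: the vertices can be placed along a line (equivalently on a circle), such that
no two edges, drawn on one side of the line (as chords of the circle), cross. -/
def IsOuterplanar {V : Type} (G : SimpleGraph V) : Prop :=
  ∃ f : V → ℕ, Function.Injective f ∧
    ∀ a b c d, G.Adj a b → G.Adj c d → f a < f c → f c < f b → f b < f d → False

/-! ### Combinatorial bar representations -/

/-- The vertex `w` is an endpoint of the edge `e`. -/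
def Inc {V : Type} (w : V) (e : V × V) : Prop := w = e.1 ∨ w = e.2

instance {V : Type} [DecidableEq V] (w : V) (e : V × V) : Decidable (Inc w e) :=
  inferInstanceAs (Decidable (w = e.1 ∨ w = e.2))

/-- Bar model: the vertex `w` is a horizontal bar at height `h w` that spans all `x e` with `e`
incident to `w`; the edge `e` is a vertical segment at `x e` between the heights of its endpoints.
`Cross h x E e w` says that the segment of `e` crosses the bar of the non-incident vertex `w`. -/
def Cross {V : Type} (h : V → ℤ) (x : V × V → ℤ) (E : Set (V × V)) (e : V × V) (w : V) : Prop :=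
  w ≠ e.1 ∧ w ≠ e.2 ∧ h e.1 < h w ∧ h w < h e.2 ∧
    ∃ e₁ ∈ E, ∃ e₂ ∈ E, Inc w e₁ ∧ Inc w e₂ ∧ x e₁ < x e ∧ x e < x e₂

/-! ### Trees describing oriented maximal outerplanar graphs -/

/-- A tree of triangles hanging at a directed edge `(l,u)` (`l` lower, `u` upper endpoint).
The third vertex `v` of the triangle at `(l,u)` satisfies `l < v < u` (constructor `M`),
`u < v` (constructor `U`) or `v < l` (constructor `D`). -/
inductive Tr (V : Type) : Type where
  | leaf : Tr V
  | M (v : V) (t₁ t₂ : Tr V) : Tr V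
  | U (v : V) (t₁ t₂ : Tr V) : Tr V
  | D (v : V) (t₁ t₂ : Tr V) : Tr V

namespace Tr
variable {V : Type}

/-- The vertices of the tree (other than the two endpoints of the root edge). -/
def labels : Tr V → List V
  | leaf => []
  | M v t₁ t₂ => v :: (t₁.labels ++ t₂.labels)
  | U v t₁ t₂ => v :: (t₁.labels ++ t₂.labels)
  | D v t₁ t₂ => v :: (t₁.labels ++ t₂.labels)

/-- The directed edges (lower endpoint, upper endpoint) of the graph described by a tree that
hangs at the edge `(l,u)`, without the root edge `(l,u)` itself. -/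
def edges : Tr V → V → V → List (V × V)
  | leaf, _, _ => []
  | M v t₁ t₂, l, u => (l, v) :: (v, u) :: (t₁.edges l v ++ t₂.edges v u)
  | U v t₁ t₂, l, u => (l, v) :: (u, v) :: (t₁.edges l v ++ t₂.edges u v)
  | D v t₁ t₂, l, u => (v, u) :: (v, l) :: (t₁.edges v u ++ t₂.edges v l)

/-- All edges including the root edge. -/
def allE (t : Tr V) (a b : V) : Set (V × V) := {e | e = (a, b) ∨ e ∈ t.edges a b}

end Tr

/-- Number of edges of a list incident to `w` (with multiplicity). -/
def deg {V : Type} [DecidableEq V] (L : List (V × V)) (w : V) : ℕ :=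
  L.countP fun e => decide (Inc w e)

/-! ### The statements of the three independent parts -/

/-- Part A: from a bar representation to an upward drawing. -/
def PartA : Prop :=
  ∀ (V : Type) (_ : Fintype V) (E : Set (V × V)) (h : V → ℤ) (x : V × V → ℤ) (K₁ K₂ D : ℕ),
    Function.Injective h → Set.InjOn x E → (∀ e ∈ E, h e.1 < h e.2) →
    (∀ w, {e | e ∈ E ∧ Cross h x E e w}.ncard ≤ K₂) →
    (∀ e ∈ E, {w | Cross h x E e w}.ncard ≤ K₁) →
    (∀ w, {e | e ∈ E ∧ Inc w e}.ncard ≤ D) →
    ∀ A : V → V → Prop, (∀ u v, A u v → (u, v) ∈ E) →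
      ∃ dr : UpwardDrawing A, dr.IsKPlanar (2 * K₂ + D * K₁)

/-- Part B: every outerplanar DAG of maximum degree `≤ Δ` on at least two vertices is a subgraph
of the graph of a tree, of maximum degree `≤ 2 Δ + 6` (not counting the root edge). -/
def PartB : Prop :=
  ∀ (V : Type) (_ : Fintype V) (_ : DecidableEq V) (A : V → V → Prop) (Δ : ℕ),
    2 ≤ Fintype.card V →
    (∀ v, ¬ Relation.TransGen A v v) →
    IsOuterplanar (SimpleGraph.fromRel A) →
    (∀ v, ((SimpleGraph.fromRel A).neighborSet v).encard ≤ Δ) →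
    ∃ (t : Tr V) (a b : V), (a :: b :: t.labels).Nodup ∧ (∀ v, v ∈ a :: b :: t.labels) ∧
      (∀ u v, A u v → (u, v) ∈ t.allE a b) ∧ (∀ w, deg (t.edges a b) w ≤ 2 * Δ + 6)

/-- A full bar representation of a tree hanging at the edge `(a,b)`. -/
def Full {V : Type} [DecidableEq V] (t : Tr V) (a b : V) (C C₁ : ℕ) : Prop :=
  ∃ (h : V → ℤ) (x : V × V → ℤ),
    Set.InjOn h {w | w ∈ a :: b :: t.labels} ∧ Set.InjOn x (t.allE a b) ∧
    (∀ e ∈ t.allE a b, h e.1 < h e.2) ∧ (∀ e ∈ t.edges a b, x (a, b) < x e) ∧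
    (∀ w, {e | e ∈ t.allE a b ∧ Cross h x (t.allE a b) e w}.ncard ≤ C * deg (t.edges a b) w) ∧
    (∀ e ∈ t.allE a b, {w | Cross h x (t.allE a b) e w}.ncard ≤ C₁)

/-- The set of all endpoints of edges in `E`. -/
def verts {V : Type} (E : Set (V × V)) : Set V := {w | ∃ e ∈ E, Inc w e}

/-- Part C: gluing a tree `t` at a free edge `g` of a bar representation of `E`.
`s = true`: the edge `g` is to the right of all other edges at its two endpoints,
`s = false`: to the left. No bar crosses `g`. -/
def PartC : Prop :=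
  ∀ (V : Type) (_ : Fintype V) (_ : DecidableEq V) (E : Set (V × V)) (h₁ : V → ℤ)
    (x₁ : V × V → ℤ) (g : V × V) (s : Bool) (t : Tr V) (h₂ : V → ℤ) (x₂ : V × V → ℤ),
    -- representation of `E`
    Set.InjOn h₁ (verts E) → Set.InjOn x₁ E → (∀ e ∈ E, h₁ e.1 < h₁ e.2) →
    -- the free edge `g`
    g ∈ E → (∀ z, ¬ Cross h₁ x₁ E g z) →
    (∀ e ∈ E, e ≠ g → (Inc g.1 e ∨ Inc g.2 e) → (s = true → x₁ e < x₁ g) ∧
      (s = false → x₁ g < x₁ e)) →
    -- the tree `t` with its representation
    t.labels.Nodup → (∀ z ∈ t.labels, z ∉ verts E) →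
    Set.InjOn h₂ {w | w ∈ g.1 :: g.2 :: t.labels} → Set.InjOn x₂ (t.allE g.1 g.2) →
    (∀ e ∈ t.allE g.1 g.2, h₂ e.1 < h₂ e.2) → (∀ e ∈ t.edges g.1 g.2, x₂ g < x₂ e) →
    ∃ (h : V → ℤ) (x : V × V → ℤ),
      let E' : Set (V × V) := {e | e ∈ E ∨ e ∈ t.edges g.1 g.2}
      Set.InjOn h (verts E') ∧ Set.InjOn x E' ∧ (∀ e ∈ E', h e.1 < h e.2) ∧
      (∀ e ∈ E, ∀ z, Cross h x E' e z → Cross h₁ x₁ E e z) ∧
      (∀ e ∈ t.edges g.1 g.2, ∀ z, Cross h x E' e z → Cross h₂ x₂ (t.allE g.1 g.2) e z) ∧
      (∀ e ∈ E, ∀ e' ∈ E, x e < x e' ↔ x₁ e < x₁ e') ∧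
      (∀ e ∈ t.edges g.1 g.2, ∀ e' ∈ E, e' ≠ g →
        (x e < x e' ↔ x₁ g < x₁ e') ∧ (x e' < x e ↔ x₁ e' < x₁ g))

end Pool.Agent.Helper4.UpLoc
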