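import Pool.Agent.Helper4.UpLoc.Full

/-!
# The final theorem
-/

namespace Pool.Agent.Helper4.UpLoc

theorem tree_drawing (V : Type) [Fintype V] [DecidableEq V] (t : Tr V) (a b : V) (Δ : ℕ)
    (hnd : (a :: b :: t.labels).Nodup) (hall : ∀ v, v ∈ a :: b :: t.labels)
    (hΔ : ∀ w, deg (t.edges a b) w ≤ Δ) (A : V → V → Prop)
    (hA : ∀ u v, A u v → (u, v) ∈ t.allE a b) :
    ∃ D : UpwardDrawing A, D.IsKPlanar (40 * Δ ^ 2 + 54 * Δ + 18) := by
  obtain ⟨h, x, h1, h2, h3, h4, h5, h6⟩ := full Δ _ t a b (le_refl _) hnd hΔ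
  have hinj : Function.Injective h := fun v w hvw => h1 (hall v) (hall w) hvw
  have hD1 : ∀ w, {e | e ∈ t.allE a b ∧ Inc w e}.ncard ≤ Δ + 1 := by
    intro w
    have hsub : {e | e ∈ t.allE a b ∧ Inc w e} ⊆
        insert (a, b) (((t.edges a b).filter fun e => decide (Inc w e)).toFinset : Set (V × V)) := by
      rintro e ⟨rfl | he, hi⟩
      · exact Set.mem_insert _ _
      · right
        simp only [List.coe_toFinset, List.mem_filter, decide_eq_true_eq, Set.mem_ofPred_eq]
        exact ⟨he, hi⟩
    refine (Set.ncard_le_ncard hsub (Set.toFinite _)).trans ?_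
    refine (Set.ncard_insert_le _ _).trans ?_
    rw [Set.ncard_coe_finset]
    refine Nat.add_le_add_right ?_ 1
    refine (List.toFinset_card_le _).trans ?_
    rw [← List.countP_eq_length_filter]
    exact hΔ w
  obtain ⟨D, hD⟩ := partA V inferInstance (t.allE a b) h x (24 * Δ + 18) ((8 * Δ + 6) * Δ)
    (Δ + 1) hinj h2 h3 (fun w => (h5 w).trans (Nat.mul_le_mul_left _ (hΔ w))) h6 hD1 A hA
  refine ⟨D, ?_⟩
  have : 2 * ((8 * Δ + 6) * Δ) + (Δ + 1) * (24 * Δ + 18) = 40 * Δ ^ 2 + 54 * Δ + 18 := by ring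
  rwa [this] at hD

/-- Q1: every outerplanar DAG of maximum degree at most `Δ` has an upward drawing in which every
edge is crossed at most `160 Δ² + 1068 Δ + 1782` times. -/
theorem outerplanar_drawing (Δ : ℕ) (V : Type) [Fintype V] (A : V → V → Prop)
    (hdag : ∀ v, ¬ Relation.TransGen A v v) (hout : IsOuterplanar (SimpleGraph.fromRel A))
    (hdeg : ∀ v, {u | A u v}.encard + {u | A v u}.encard ≤ Δ) :
    ∃ D : UpwardDrawing A, D.IsKPlanar (160 * Δ ^ 2 + 1068 * Δ + 1782) := by
  classical
  by_cases hcard : 2 ≤ Fintype.card V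
  · obtain ⟨t, a, b, h1, h2, h3, h4⟩ := Pool.Agent.Helper84.UpLoc.partB V inferInstance
      inferInstance A Δ hcard hdag hout (by
        intro v
        refine le_trans (Set.encard_le_encard ?_) ((Set.encard_union_le _ _).trans (hdeg v))
        intro u hu
        rw [SimpleGraph.mem_neighborSet, SimpleGraph.fromRel_adj] at hu
        rcases hu.2 with h | h
        · exact Or.inr h
        · exact Or.inl h)
    obtain ⟨D, hD⟩ := tree_drawing V t a b (2 * Δ + 6) h1 h2 h4 A h3
    refine ⟨D, ?_⟩
    have : 40 * (2 * Δ + 6) ^ 2 + 54 * (2 * Δ + 6) + 18 = 160 * Δ ^ 2 + 1068 * Δ + 1782 := by ring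
    rwa [this] at hD
  · have hsub : Subsingleton V := Fintype.card_le_one_iff_subsingleton.1 (by omega)
    have hno : ∀ u v, ¬ A u v := by
      intro u v h
      have : u = v := Subsingleton.elim _ _
      subst this
      exact hdag u (Relation.TransGen.single h)
    exact ⟨{
      pos := fun _ => (0, 0)
      pos_injective := fun u v _ => Subsingleton.elim u v
      arc := fun u v h => absurd h (hno u v)
      arc_continuous := fun u v h => absurd h (hno u v)
      arc_zero := fun u v h => absurd h (hno u v)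
      arc_one := fun u v h => absurd h (hno u v)
      arc_upward := fun u v h => absurd h (hno u v)
      arc_avoids := fun u v h => absurd h (hno u v) }, fun e he => absurd he (hno _ _)⟩

end Pool.Agent.Helper4.UpLoc
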