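import Pool.Agent.Helper4.UpLoc.Main5
import Pool.Agent.Helper31.UpLoc.PartC
import Pool.Agent.Helper84.UpLoc.PartB
import Pool.Agent.Helper40.PartA

/-!
# Gluing all blobs; the full representation; the final theorem
-/

namespace Pool.Agent.Helper4.UpLoc

variable {V : Type} [Fintype V] [DecidableEq V]

/-- pending edge: (edge, side, tree) -/
abbrev Pend (V : Type) := (V × V) × Bool × Tr V

theorem glue_all (C C₁ : ℕ) : ∀ (L : List (Pend V)) (E : Set (V × V)) (h : V → ℤ)
    (x : V × V → ℤ) (B : V → ℕ) (r : V × V),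
    Set.InjOn h (verts E) → Set.InjOn x E → (∀ e ∈ E, h e.1 < h e.2) →
    (∀ w, {e | e ∈ E ∧ Cross h x E e w}.ncard ≤ B w) →
    (∀ e ∈ E, {w | Cross h x E e w}.ncard ≤ C₁) →
    r ∈ E → (∀ e ∈ E, e ≠ r → x r < x e) →
    (∀ p ∈ L, p.1 ∈ E ∧ p.1 ≠ r ∧ (∀ z, ¬ Cross h x E p.1 z) ∧
      (∀ e ∈ E, e ≠ p.1 → (Inc p.1.1 e ∨ Inc p.1.2 e) →
        (p.2.1 = true → x e < x p.1) ∧ (p.2.1 = false → x p.1 < x e)) ∧
      (∀ z ∈ p.2.2.labels, z ∉ verts E) ∧ p.2.2.labels.Nodup ∧
      Full p.2.2 p.1.1 p.1.2 C C₁) →
    L.Pairwise (fun p q => p.1 ≠ q.1 ∧ ∀ z ∈ p.2.2.labels, z ∉ q.2.2.labels) →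
    ∃ (h' : V → ℤ) (x' : V × V → ℤ),
      let E' : Set (V × V) := {e | e ∈ E ∨ ∃ p ∈ L, e ∈ p.2.2.edges p.1.1 p.1.2}
      Set.InjOn h' (verts E') ∧ Set.InjOn x' E' ∧ (∀ e ∈ E', h' e.1 < h' e.2) ∧
      (∀ w, {e | e ∈ E' ∧ Cross h' x' E' e w}.ncard ≤
        B w + C * deg (L.flatMap fun p => p.2.2.edges p.1.1 p.1.2) w) ∧
      (∀ e ∈ E', {w | Cross h' x' E' e w}.ncard ≤ C₁) ∧
      (∀ e ∈ E', e ≠ r → x' r < x' e) := by
  intro L
  induction L with
  | nil =>
    intro E h x B r h1 h2 h3 h4 h5 h6 h7 _ _
    refine ⟨h, x, ?_⟩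
    have hE : {e | e ∈ E ∨ ∃ p ∈ ([] : List (Pend V)), e ∈ p.2.2.edges p.1.1 p.1.2} = E := by
      ext e; simp
    simp only [hE]
    refine ⟨h1, h2, h3, ?_, h5, h7⟩
    intro w
    have := h4 w
    simpa using le_trans this (Nat.le_add_right _ _)
  | cons p L ih =>
    intro E h x B r h1 h2 h3 h4 h5 h6 h7 h8 h9
    rw [List.pairwise_cons] at h9
    obtain ⟨p1, p2, p3, p4, p5, p6, hfull⟩ := h8 p (by simp)
    obtain ⟨h₂, x₂, f1, f2, f3, f4, f5, f6⟩ := hfull
    obtain ⟨hn, xn, c1, c2, c3, c4, c5, c6, c7⟩ := Pool.Agent.Helper31.UpLoc.partC V inferInstance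
      inferInstance E h x p.1
      p.2.1 p.2.2 h₂ x₂ h1 h2 h3 p1 p3 p4 p6 p5 f1 f2 f3 f4
    set E₁ : Set (V × V) := {e | e ∈ E ∨ e ∈ p.2.2.edges p.1.1 p.1.2} with hE₁
    have ends := Pool.Agent.Helper31.UpLoc.edges_ends p.2.2 p.1.1 p.1.2
    have hv1 : ∀ z ∈ verts E₁, z ∈ verts E ∨ z ∈ p.2.2.labels := by
      rintro z ⟨e, he | he, hi⟩
      · exact Or.inl ⟨e, he, hi⟩
      · have h := ends e he
        rcases hi with rfl | rfl
        · rcases h.2.1 with h | h | h
          · left; exact ⟨p.1, p1, Or.inl h⟩
          · left; exact ⟨p.1, p1, Or.inr h⟩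
          · exact Or.inr h
        · rcases h.2.2 with h | h | h
          · left; exact ⟨p.1, p1, Or.inl h⟩
          · left; exact ⟨p.1, p1, Or.inr h⟩
          · exact Or.inr h
    have key := ih E₁ hn xn (fun w => B w + C * deg (p.2.2.edges p.1.1 p.1.2) w) r c1 c2 c3 ?_ ?_
      (Or.inl h6) ?_ ?_ h9.2
    · obtain ⟨h', x', k1, k2, k3, k4, k5, k6⟩ := key
      refine ⟨h', x', ?_⟩
      have hE : {e | e ∈ E₁ ∨ ∃ q ∈ L, e ∈ q.2.2.edges q.1.1 q.1.2} =
          {e | e ∈ E ∨ ∃ q ∈ p :: L, e ∈ q.2.2.edges q.1.1 q.1.2} := by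
        ext e
        simp only [hE₁, Set.mem_ofPred_eq, List.mem_cons, exists_eq_or_imp]
        tauto
      simp only [hE] at k1 k2 k3 k4 k5 k6
      refine ⟨k1, k2, k3, ?_, k5, k6⟩
      intro w
      refine le_trans (k4 w) ?_
      rw [List.flatMap_cons, deg_append]
      exact le_of_eq (by ring)
    · -- crossings of a bar in E₁
      intro w
      have hsub : {e | e ∈ E₁ ∧ Cross hn xn E₁ e w} ⊆ {e | e ∈ E ∧ Cross h x E e w} ∪
          {e | e ∈ p.2.2.allE p.1.1 p.1.2 ∧ Cross h₂ x₂ (p.2.2.allE p.1.1 p.1.2) e w} := by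
        rintro e ⟨he | he, hc⟩
        · exact Or.inl ⟨he, c4 e he w hc⟩
        · exact Or.inr ⟨Or.inr he, c5 e he w hc⟩
      refine le_trans (Set.ncard_le_ncard hsub (Set.toFinite _)) ?_
      refine le_trans (Set.ncard_union_le _ _) ?_
      exact Nat.add_le_add (h4 w) (f5 w)
    · rintro e (he | he)
      · refine le_trans (Set.ncard_le_ncard ?_ (Set.toFinite _)) (h5 e he)
        exact fun w hc => c4 e he w hc
      · refine le_trans (Set.ncard_le_ncard ?_ (Set.toFinite _)) (f6 e (Or.inr he))
        exact fun w hc => c5 e he w hc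
    · -- root is minimal
      rintro e (he | he) hne
      · exact (c6 r h6 e he).2 (h7 e he hne)
      · exact ((c7 e he r h6 p2.symm).2).2 (h7 p.1 p1 p2)
    · -- pending
      intro q hq
      obtain ⟨q1, q2, q3, q4, q5, q6, q7⟩ := h8 q (by simp [hq])
      have hpq := h9.1 q hq
      refine ⟨Or.inl q1, q2, fun z hc => q3 z (c4 q.1 q1 z hc), ?_, ?_, q6, q7⟩
      · rintro e (he | he) hne hinc
        · have := q4 e he hne hinc
          exact ⟨fun hs => (c6 e he q.1 q1).2 (this.1 hs), fun hs => (c6 q.1 q1 e he).2 (this.2 hs)⟩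
        · have hc := c7 e he q.1 q1 hpq.1.symm
          -- q.1 shares an endpoint with p.1
          have hshare : Inc q.1.1 p.1 ∨ Inc q.1.2 p.1 := by
            have h := ends e he
            have a1 : q.1.1 ∉ p.2.2.labels := fun hl => p5 _ hl ⟨q.1, q1, Or.inl rfl⟩
            have a2 : q.1.2 ∉ p.2.2.labels := fun hl => p5 _ hl ⟨q.1, q1, Or.inr rfl⟩
            rcases hinc with h' | h'
            · left
              rcases h' with h' | h'
              · rcases h.2.1 with g | g | g
                · exact Or.inl (h'.trans g)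
                · exact Or.inr (h'.trans g)
                · exact absurd (h' ▸ g) a1
              · rcases h.2.2 with g | g | g
                · exact Or.inl (h'.trans g)
                · exact Or.inr (h'.trans g)
                · exact absurd (h' ▸ g) a1
            · right
              rcases h' with h' | h'
              · rcases h.2.1 with g | g | g
                · exact Or.inl (h'.trans g)
                · exact Or.inr (h'.trans g)
                · exact absurd (h' ▸ g) a2
              · rcases h.2.2 with g | g | g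
                · exact Or.inl (h'.trans g)
                · exact Or.inr (h'.trans g)
                · exact absurd (h' ▸ g) a2
          have hs := q4 p.1 p1 hpq.1 hshare
          exact ⟨fun h => hc.1.2 (hs.1 h), fun h => hc.2.2 (hs.2 h)⟩
      · intro z hz hzv
        rcases hv1 z hzv with h | h
        · exact q5 z hz h
        · exact hpq.2 z h hz

theorem deg_le_of_flatMap {W : Type} (L : List W) (f : W → List (V × V)) (w : V) {p : W}
    (hp : p ∈ L) : deg (f p) w ≤ deg (L.flatMap f) w := by
  induction L with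
  | nil => simp at hp
  | cons q L ih =>
    rw [List.flatMap_cons, deg_append]
    rw [List.mem_cons] at hp
    rcases hp with rfl | hp
    · omega
    · have := ih hp; omega

theorem full (Δ : ℕ) : ∀ (n : ℕ) (t : Tr V) (a b : V), t.labels.length ≤ n →
    (a :: b :: t.labels).Nodup → (∀ w, deg (t.edges a b) w ≤ Δ) →
    Full t a b (8 * Δ + 6) (24 * Δ + 18) := by
  intro n
  induction n with
  | zero =>
    intro t a b hlen hnd hΔ
    have ht : t = Tr.leaf := by
      cases t with
      | leaf => rfl
      | M v t₁ t₂ => simp [Tr.labels] at hlen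
      | U v t₁ t₂ => simp [Tr.labels] at hlen
      | D v t₁ t₂ => simp [Tr.labels] at hlen
    subst ht
    have hab : a ≠ b := by
      rw [List.nodup_cons] at hnd
      intro h; apply hnd.1; simp [h]
    have hall : ∀ e ∈ (Tr.leaf : Tr V).allE a b, e = (a, b) := by
      rintro e (h | h)
      · exact h
      · simp [Tr.edges] at h
    refine ⟨fun w => if w = a then 0 else 1, fun _ => 0, ?_, ?_, ?_, ?_, ?_, ?_⟩
    · intro w hw w' hw' heq
      simp only [Tr.labels, List.mem_cons, List.not_mem_nil, or_false, Set.mem_ofPred_eq] at hw hw'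
      rcases hw with rfl | rfl <;> rcases hw' with rfl | rfl
      · rfl
      · simp [hab.symm] at heq
      · simp [hab.symm] at heq
      · rfl
    · intro e he e' he' _
      rw [hall e he, hall e' he']
    · intro e he
      rw [hall e he]
      simp [hab.symm]
    · intro e he
      simp [Tr.edges] at he
    · intro w
      have : {e | e ∈ (Tr.leaf : Tr V).allE a b ∧ Cross (fun w => if w = a then 0 else 1)
          (fun _ => 0) ((Tr.leaf : Tr V).allE a b) e w} = ∅ := by
        ext e
        simp only [Set.mem_ofPred_eq, Set.mem_empty_iff_false, iff_false]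
        rintro ⟨-, -, -, -, -, e₁, -, e₂, -, -, -, hx, -⟩
        exact lt_irrefl _ hx
      rw [this]
      simp
    · intro e he
      have : {w | Cross (fun w => if w = a then 0 else 1)
          (fun _ => 0) ((Tr.leaf : Tr V).allE a b) e w} = ∅ := by
        ext w
        simp only [Set.mem_ofPred_eq, Set.mem_empty_iff_false, iff_false]
        rintro ⟨-, -, -, -, e₁, -, e₂, -, -, -, hx, -⟩
        exact lt_irrefl _ hx
      rw [this]
      simp
  | succ n ih =>
    intro t a b hlen hnd hΔ
    have hok := ok_root a b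
    obtain ⟨h, x, m1, m2, m3, m4, m5, m6, m7⟩ := main_rep hnd hΔ
    have hperm := edges_perm t (rl a) (ru b)
    have hla : (rl a).lab = a := rfl
    have hlb : (ru b).lab = b := rfl
    rw [hla, hlb] at hperm
    have hlabp := labels_perm t (rl a) (ru b)
    have hnd2 : t.labels.Nodup := (List.nodup_cons.1 (List.nodup_cons.1 hnd).2).2
    have hnd3 := (hlabp.nodup_iff).1 hnd2
    rw [List.nodup_append] at hnd3
    obtain ⟨nA, nF, nD⟩ := hnd3
    rw [List.nodup_flatMap] at nF
    have hdeg : ∀ w, deg (t.edges a b) w = deg ((t.me (rl a) (ru b)).map labs) w +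
        deg ((t.blobs (rl a) (ru b)).flatMap fun g => g.2.2.edges g.1.lab g.2.1.lab) w := by
      intro w
      rw [← deg_append]
      unfold deg
      exact hperm.countP_eq _
    -- list of pending edges
    let L : List (Pend V) := (t.blobs (rl a) (ru b)).map fun g =>
      ((g.1.lab, g.2.1.lab), side g, g.2.2)
    have hLe : (L.flatMap fun p => p.2.2.edges p.1.1 p.1.2) =
        (t.blobs (rl a) (ru b)).flatMap fun g => g.2.2.edges g.1.lab g.2.1.lab := by
      simp only [L, List.flatMap_map]
    have hE0v : ∀ z ∈ verts (E0 t a b), z = a ∨ z = b ∨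
        z ∈ (t.apexes (rl a) (ru b)).map AV.lab := by
      rintro z ⟨e, rfl | he, hi⟩
      · rcases hi with rfl | rfl
        · exact Or.inl rfl
        · exact Or.inr (Or.inl rfl)
      · rw [List.mem_map] at he
        obtain ⟨ε, hε, rfl⟩ := he
        have hv := me_vs hok hε
        simp only [Tr.vs, List.mem_cons] at hv
        rcases hi with rfl | rfl
        · rcases hv.1 with q | q | q
          · left; simp only [labs, q]; rfl
          · right; left; simp only [labs, q]; rfl
          · right; right; exact List.mem_map_of_mem q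
        · rcases hv.2 with q | q | q
          · left; simp only [labs, q]; rfl
          · right; left; simp only [labs, q]; rfl
          · right; right; exact List.mem_map_of_mem q
    have hbl : ∀ g ∈ t.blobs (rl a) (ru b), ∀ z ∈ g.2.2.labels, z ∈ t.labels ∧
        z ∉ verts (E0 t a b) := by
      intro g hg z hz
      have hzf : z ∈ (t.blobs (rl a) (ru b)).flatMap fun g => g.2.2.labels :=
        List.mem_flatMap.2 ⟨g, hg, hz⟩
      have hzt : z ∈ t.labels := (hlabp.mem_iff).2 (List.mem_append_right _ hzf)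
      refine ⟨hzt, fun hzv => ?_⟩
      rcases hE0v z hzv with rfl | rfl | hA
      · rw [List.nodup_cons] at hnd; exact hnd.1 (List.mem_cons_of_mem _ hzt)
      · have := (List.nodup_cons.1 hnd).2
        rw [List.nodup_cons] at this; exact this.1 hzt
      · exact nD z hA z hzf rfl
    have hgl := glue_all (8 * Δ + 6) (24 * Δ + 18) L (E0 t a b) h x
      (fun w => (8 * Δ + 6) * deg ((t.me (rl a) (ru b)).map labs) w) (a, b) m1 m2 m3 m4 m5
      (Or.inl rfl) m6 ?_ ?_
    · obtain ⟨h', x', k1, k2, k3, k4, k5, k6⟩ := hgl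
      have hE : {e | e ∈ E0 t a b ∨ ∃ p ∈ L, e ∈ p.2.2.edges p.1.1 p.1.2} = t.allE a b := by
        ext e
        simp only [Set.mem_ofPred_eq, E0, Tr.allE]
        rw [hperm.mem_iff, List.mem_append, ← hLe, List.mem_flatMap, or_assoc]
      simp only [hE] at k1 k2 k3 k4 k5 k6
      have hab : a ≠ b := by
        rw [List.nodup_cons] at hnd
        intro h; apply hnd.1; simp [h]
      have hnr : ∀ e ∈ t.edges a b, e ≠ (a, b) := by
        rintro e he rfl
        have := (Pool.Agent.Helper31.UpLoc.edges_ends t a b _ he).1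
        rcases this with h | h
        · rw [List.nodup_cons] at hnd; exact hnd.1 (List.mem_cons_of_mem _ h)
        · have h2 := (List.nodup_cons.1 hnd).2
          rw [List.nodup_cons] at h2; exact h2.1 h
      refine ⟨h', x', ?_, k2, k3, fun e he => k6 e (Or.inr he) (hnr e he), ?_, k5⟩
      · refine k1.mono ?_
        intro w hw
        simp only [Set.mem_ofPred_eq, List.mem_cons] at hw
        -- every label is an endpoint of an edge
        have hlab : ∀ (s : Tr V) (p q : V), ∀ z ∈ s.labels, ∃ e ∈ s.edges p q, Inc z e := by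
          intro s
          induction s with
          | leaf => intro p q z hz; simp [Tr.labels] at hz
          | M v s₁ s₂ j₁ j₂ =>
            intro p q z hz
            simp only [Tr.labels, List.mem_cons, List.mem_append] at hz
            simp only [Tr.edges, List.mem_cons, List.mem_append]
            rcases hz with rfl | hz | hz
            · exact ⟨(p, z), Or.inl rfl, Or.inr rfl⟩
            · obtain ⟨e, he, hi⟩ := j₁ p v z hz; exact ⟨e, by tauto, hi⟩
            · obtain ⟨e, he, hi⟩ := j₂ v q z hz; exact ⟨e, by tauto, hi⟩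
          | U v s₁ s₂ j₁ j₂ =>
            intro p q z hz
            simp only [Tr.labels, List.mem_cons, List.mem_append] at hz
            simp only [Tr.edges, List.mem_cons, List.mem_append]
            rcases hz with rfl | hz | hz
            · exact ⟨(p, z), Or.inl rfl, Or.inr rfl⟩
            · obtain ⟨e, he, hi⟩ := j₁ p v z hz; exact ⟨e, by tauto, hi⟩
            · obtain ⟨e, he, hi⟩ := j₂ q v z hz; exact ⟨e, by tauto, hi⟩
          | D v s₁ s₂ j₁ j₂ =>
            intro p q z hz
            simp only [Tr.labels, List.mem_cons, List.mem_append] at hz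
            simp only [Tr.edges, List.mem_cons, List.mem_append]
            rcases hz with rfl | hz | hz
            · exact ⟨(z, q), Or.inl rfl, Or.inl rfl⟩
            · obtain ⟨e, he, hi⟩ := j₁ v q z hz; exact ⟨e, by tauto, hi⟩
            · obtain ⟨e, he, hi⟩ := j₂ v p z hz; exact ⟨e, by tauto, hi⟩
        rcases hw with rfl | rfl | hw
        · exact ⟨(w, b), Or.inl rfl, Or.inl rfl⟩
        · exact ⟨(a, w), Or.inl rfl, Or.inr rfl⟩
        · obtain ⟨e, he, hi⟩ := hlab t a b w hw
          exact ⟨e, Or.inr he, hi⟩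
      · intro w
        refine le_trans (k4 w) ?_
        rw [hLe, hdeg w]
        exact le_of_eq (by ring)
    · -- pending edges
      intro p hp
      simp only [L, List.mem_map] at hp
      obtain ⟨g, hg, rfl⟩ := hp
      have hgm : (g.1, g.2.1) ∈ t.me (rl a) (ru b) := mem_me.2 (Or.inr ⟨g, hg, rfl⟩)
      have hmem : (g.1.lab, g.2.1.lab) ∈ E0 t a b := Or.inr (List.mem_map.2 ⟨_, hgm, rfl⟩)
      obtain ⟨s1, s2⟩ := m7 g hg
      have hgv := me_vs hok hgm
      -- labels of the endpoints
      have hlabv : ∀ z ∈ t.vs (rl a) (ru b), z.lab ∈ verts (E0 t a b) → True := fun _ _ _ => trivial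
      have hne : g.1.lab ≠ g.2.1.lab := by
        have := m3 _ hmem
        intro hc
        simp only [hc] at this
        exact lt_irrefl _ this
      have hver : g.1.lab ∈ verts (E0 t a b) ∧ g.2.1.lab ∈ verts (E0 t a b) :=
        ⟨⟨_, hmem, Or.inl rfl⟩, ⟨_, hmem, Or.inr rfl⟩⟩
      refine ⟨hmem, ?_, s1, s2, fun z hz => (hbl g hg z hz).2, nF.1 g hg, ?_⟩
      · -- ≠ root
        intro hc
        obtain ⟨F, hF⟩ := exists_F hnd
        have f1 := hF _ hgv.1
        have f2 := hF _ hgv.2
        have e1 : g.1.lab = a := congrArg Prod.fst hc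
        have e2 : g.2.1.lab = b := congrArg Prod.snd hc
        simp only at f1 f2
        rw [e1] at f1
        rw [e2] at f2
        have f3 : F a = rl a := hF (rl a) (by simp [Tr.vs])
        have f4 : F b = ru b := hF (ru b) (by simp [Tr.vs])
        apply me_root_ne hgm
        rw [← f1, ← f2, f3, f4]
      · apply ih
        · have := blobs_size t (rl a) (ru b) g hg
          simp only
          omega
        · rw [List.nodup_cons, List.nodup_cons]
          refine ⟨?_, ?_, nF.1 g hg⟩
          · intro hm
            rw [List.mem_cons] at hm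
            rcases hm with hm | hm
            · exact hne hm
            · exact (hbl g hg _ hm).2 hver.1
          · intro hm
            exact (hbl g hg _ hm).2 hver.2
        · intro w
          refine le_trans ?_ (hΔ w)
          rw [hdeg w]
          have := deg_le_of_flatMap (t.blobs (rl a) (ru b))
            (fun g => g.2.2.edges g.1.lab g.2.1.lab) w hg
          simp only at this ⊢
          omega
    · -- pairwise
      simp only [L, List.pairwise_map]
      have hb := blobs_pairwise t (rl a) (ru b) hok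
      obtain ⟨F, hF⟩ := exists_F hnd
      have hboth := hb.and nF.2
      rw [List.pairwise_iff_forall_sublist] at hboth ⊢
      intro g g' hsub
      obtain ⟨q1, q2⟩ := hboth hsub
      have hg : g ∈ t.blobs (rl a) (ru b) := hsub.subset (by simp)
      have hg' : g' ∈ t.blobs (rl a) (ru b) := hsub.subset (by simp)
      refine ⟨?_, ?_⟩
      · intro hc
        apply q1.1
        have hgm : (g.1, g.2.1) ∈ t.me (rl a) (ru b) := mem_me.2 (Or.inr ⟨g, hg, rfl⟩)
        have hgm' : (g'.1, g'.2.1) ∈ t.me (rl a) (ru b) := mem_me.2 (Or.inr ⟨g', hg', rfl⟩)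
        have hgv := me_vs hok hgm
        have hgv' := me_vs hok hgm'
        have e1 : g.1.lab = g'.1.lab := congrArg Prod.fst hc
        have e2 : g.2.1.lab = g'.2.1.lab := congrArg Prod.snd hc
        have a1 : g.1 = g'.1 := (hF _ hgv.1).symm.trans ((congrArg F e1).trans (hF _ hgv'.1))
        have a2 : g.2.1 = g'.2.1 := (hF _ hgv.2).symm.trans ((congrArg F e2).trans (hF _ hgv'.2))
        unfold nw
        rw [a1, a2]
      · intro z hz hz'
        exact q2 hz hz'

end Pool.Agent.Helper4.UpLoc
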