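import Pool.Agent.Helper4.UpLoc.Defs

/-!
# The main part of a tree: attributes of the vertices
-/

namespace Pool.Agent.Helper4.UpLoc

/-- A vertex with attributes: cluster `k`, offset `o` in the cluster, time `t` and the side `p`
of the pending edge at which it was introduced. -/
@[ext] structure AV (V : Type) where
  lab : V
  k : ℚ
  o : ℤ
  t : ℤ
  p : Bool

namespace AV
variable {V : Type}

def sideUp (z : AV V) : Bool := if z.o = 0 then true else !z.p
def sideDn (z : AV V) : Bool := if z.o = 0 then false else !z.p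

end AV

variable {V : Type}

def apM (v : V) (l u : AV V) : AV V := ⟨v, (l.k + u.k) / 2, 0, max l.t u.t + 1, true⟩
def apU (v : V) (l u : AV V) : AV V := ⟨v, u.k, max l.t u.t + 1, max l.t u.t + 1, u.sideUp⟩
def apD (v : V) (l u : AV V) : AV V := ⟨v, l.k, -(max l.t u.t + 1), max l.t u.t + 1, l.sideDn⟩

/-- time of an edge -/
def tm (e : AV V × AV V) : ℤ := max e.1.t e.2.t

namespace Tr

def apexes : Tr V → AV V → AV V → List (AV V)
  | leaf, _, _ => []
  | M v t₁ t₂, l, u => apM v l u :: (t₁.apexes l (apM v l u) ++ t₂.apexes (apM v l u) u)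
  | U v t₁ _, l, u => apU v l u :: t₁.apexes l (apU v l u)
  | D v t₁ _, l, u => apD v l u :: t₁.apexes (apD v l u) u

def strips : Tr V → AV V → AV V → List (AV V × AV V)
  | leaf, _, _ => []
  | M v t₁ t₂, l, u => (l, apM v l u) :: (apM v l u, u) ::
      (t₁.strips l (apM v l u) ++ t₂.strips (apM v l u) u)
  | U v t₁ _, l, u => (l, apU v l u) :: t₁.strips l (apU v l u)
  | D v t₁ _, l, u => (apD v l u, u) :: t₁.strips (apD v l u) u

/-- Pending (blob) edges: (lower endpoint, upper endpoint, tree). -/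
def blobs : Tr V → AV V → AV V → List (AV V × AV V × Tr V)
  | leaf, _, _ => []
  | M v t₁ t₂, l, u => t₁.blobs l (apM v l u) ++ t₂.blobs (apM v l u) u
  | U v t₁ t₂, l, u => (u, apU v l u, t₂) :: t₁.blobs l (apU v l u)
  | D v t₁ t₂, l, u => (apD v l u, l, t₂) :: t₁.blobs (apD v l u) u

end Tr

/-- Conditions on the root pair. -/
structure Ok (l u : AV V) : Prop where
  k : l.k < u.k
  lt : 0 < l.t
  ut : 0 < u.t
  lo : l.o ≤ 0
  lo' : -l.t ≤ l.o
  uo : 0 ≤ u.o
  uo' : u.o ≤ u.t

theorem Ok.M1 {l u : AV V} (h : Ok l u) (v : V) : Ok l (apM v l u) := by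
  obtain ⟨h1, h2, h3, h4, h5, h6, h7⟩ := h
  refine ⟨?_, h2, ?_, h4, h5, ?_, ?_⟩ <;> simp only [apM]
  · linarith
  · omega
  · omega
  · omega

theorem Ok.M2 {l u : AV V} (h : Ok l u) (v : V) : Ok (apM v l u) u := by
  obtain ⟨h1, h2, h3, h4, h5, h6, h7⟩ := h
  refine ⟨?_, ?_, h3, ?_, ?_, h6, h7⟩ <;> simp only [apM]
  · linarith
  · omega
  · omega
  · omega

theorem Ok.U1 {l u : AV V} (h : Ok l u) (v : V) : Ok l (apU v l u) := by
  obtain ⟨h1, h2, h3, h4, h5, h6, h7⟩ := h
  refine ⟨?_, h2, ?_, h4, h5, ?_, ?_⟩ <;> simp only [apU]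
  · exact h1
  · omega
  · omega
  · omega

theorem Ok.D1 {l u : AV V} (h : Ok l u) (v : V) : Ok (apD v l u) u := by
  obtain ⟨h1, h2, h3, h4, h5, h6, h7⟩ := h
  refine ⟨?_, ?_, h3, ?_, ?_, h6, h7⟩ <;> simp only [apD]
  · exact h1
  · omega
  · omega
  · omega

/-- Bounds for apexes. -/
structure AB (l u z : AV V) : Prop where
  k1 : l.k ≤ z.k
  k2 : z.k ≤ u.k
  t1 : l.t < z.t
  t2 : u.t < z.t
  ol : z.k = l.k → z.o = -z.t
  ou : z.k = u.k → z.o = z.t
  o3 : z.o = 0 ∨ z.o = z.t ∨ z.o = -z.t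

theorem ab_M {l u : AV V} (h : Ok l u) (v : V) : AB l u (apM v l u) := by
  obtain ⟨h1, h2, h3, h4, h5, h6, h7⟩ := h
  constructor <;> simp only [apM]
  · linarith
  · linarith
  · omega
  · omega
  · intro h; linarith
  · intro h; linarith
  · exact Or.inl trivial

theorem ab_U {l u : AV V} (h : Ok l u) (v : V) : AB l u (apU v l u) := by
  obtain ⟨h1, h2, h3, h4, h5, h6, h7⟩ := h
  constructor <;> simp only [apU]
  · linarith
  · linarith
  · omega
  · omega
  · intro h; linarith
  · intro _; trivial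
  · exact Or.inr (Or.inl trivial)

theorem ab_D {l u : AV V} (h : Ok l u) (v : V) : AB l u (apD v l u) := by
  obtain ⟨h1, h2, h3, h4, h5, h6, h7⟩ := h
  constructor <;> simp only [apD]
  · linarith
  · linarith
  · omega
  · omega
  · intro _; trivial
  · intro h; linarith
  · exact Or.inr (Or.inr trivial)

theorem ab (t : Tr V) : ∀ (l u : AV V), Ok l u → ∀ z ∈ t.apexes l u, AB l u z := by
  induction t with
  | leaf => intro l u _ z hz; simp [Tr.apexes] at hz
  | M v t₁ t₂ ih₁ ih₂ =>
    intro l u h z hz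
    simp only [Tr.apexes, List.mem_cons, List.mem_append] at hz
    rcases hz with rfl | hz | hz
    · exact ab_M h v
    · obtain ⟨a1, a2, a3, a4, a5, a6, a7⟩ := ih₁ _ _ (h.M1 v) z hz
      have hk := h.k
      simp only [apM] at a2 a4 a6
      refine ⟨a1, by linarith, a3, by omega, a5, ?_, a7⟩
      intro hh; linarith
    · obtain ⟨a1, a2, a3, a4, a5, a6, a7⟩ := ih₂ _ _ (h.M2 v) z hz
      have hk := h.k
      simp only [apM] at a1 a3 a5
      refine ⟨by linarith, a2, by omega, a4, ?_, a6, a7⟩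
      intro hh; linarith
  | U v t₁ t₂ ih₁ ih₂ =>
    intro l u h z hz
    simp only [Tr.apexes, List.mem_cons] at hz
    rcases hz with rfl | hz
    · exact ab_U h v
    · obtain ⟨a1, a2, a3, a4, a5, a6, a7⟩ := ih₁ _ _ (h.U1 v) z hz
      simp only [apU] at a2 a4 a6
      exact ⟨a1, a2, a3, by omega, a5, a6, a7⟩
  | D v t₁ t₂ ih₁ ih₂ =>
    intro l u h z hz
    simp only [Tr.apexes, List.mem_cons] at hz
    rcases hz with rfl | hz
    · exact ab_D h v
    · obtain ⟨a1, a2, a3, a4, a5, a6, a7⟩ := ih₁ _ _ (h.D1 v) z hz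
      simp only [apD] at a1 a3 a5
      exact ⟨a1, a2, by omega, a4, a5, a6, a7⟩

/-- Bounds for strip edges. -/
structure SB (l u : AV V) (A : List (AV V)) (e : AV V × AV V) : Prop where
  k1 : l.k ≤ e.1.k
  k : e.1.k < e.2.k
  k2 : e.2.k ≤ u.k
  t1 : l.t < tm e
  t2 : u.t < tm e
  m1 : e.1 = l ∨ e.1 ∈ A
  m2 : e.2 = u ∨ e.2 ∈ A

theorem sb (t : Tr V) : ∀ (l u : AV V), Ok l u → ∀ e ∈ t.strips l u,
    SB l u (t.apexes l u) e := by
  induction t with
  | leaf => intro l u _ z hz; simp [Tr.strips] at hz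
  | M v t₁ t₂ ih₁ ih₂ =>
    intro l u h e he
    have hk := h.k
    have hM := ab_M h v
    obtain ⟨b1, b2, b3, b4, b5, b6, b7⟩ := hM
    simp only [Tr.strips, List.mem_cons, List.mem_append] at he
    rcases he with rfl | rfl | he | he
    · refine ⟨le_refl _, ?_, b2, ?_, ?_, Or.inl rfl, Or.inr ?_⟩
      · simp only [apM]; linarith
      · simp only [tm]; omega
      · simp only [tm]; omega
      · simp [Tr.apexes]
    · refine ⟨b1, ?_, le_refl _, ?_, ?_, Or.inr ?_, Or.inl rfl⟩
      · simp only [apM]; linarith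
      · simp only [tm]; omega
      · simp only [tm]; omega
      · simp [Tr.apexes]
    · obtain ⟨a1, a2, a3, a4, a5, a6, a7⟩ := ih₁ _ _ (h.M1 v) e he
      refine ⟨a1, a2, by linarith, a4, by omega, ?_, Or.inr ?_⟩
      · rcases a6 with a | a
        · exact Or.inl a
        · right; simp [Tr.apexes, a]
      · rcases a7 with a | a
        · rw [a]; simp [Tr.apexes]
        · simp [Tr.apexes, a]
    · obtain ⟨a1, a2, a3, a4, a5, a6, a7⟩ := ih₂ _ _ (h.M2 v) e he
      refine ⟨by linarith, a2, a3, by omega, a5, Or.inr ?_, ?_⟩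
      · rcases a6 with a | a
        · rw [a]; simp [Tr.apexes]
        · simp [Tr.apexes, a]
      · rcases a7 with a | a
        · exact Or.inl a
        · right; simp [Tr.apexes, a]
  | U v t₁ t₂ ih₁ ih₂ =>
    intro l u h e he
    have hk := h.k
    obtain ⟨b1, b2, b3, b4, b5, b6, b7⟩ := ab_U h v
    simp only [Tr.strips, List.mem_cons] at he
    rcases he with rfl | he
    · refine ⟨le_refl _, hk, b2, ?_, ?_, Or.inl rfl, Or.inr ?_⟩
      · simp only [tm]; omega
      · simp only [tm]; omega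
      · simp [Tr.apexes]
    · obtain ⟨a1, a2, a3, a4, a5, a6, a7⟩ := ih₁ _ _ (h.U1 v) e he
      refine ⟨a1, a2, a3, a4, by omega, ?_, Or.inr ?_⟩
      · rcases a6 with a | a
        · exact Or.inl a
        · right; simp [Tr.apexes, a]
      · rcases a7 with a | a
        · rw [a]; simp [Tr.apexes]
        · simp [Tr.apexes, a]
  | D v t₁ t₂ ih₁ ih₂ =>
    intro l u h e he
    have hk := h.k
    obtain ⟨b1, b2, b3, b4, b5, b6, b7⟩ := ab_D h v
    simp only [Tr.strips, List.mem_cons] at he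
    rcases he with rfl | he
    · refine ⟨b1, hk, le_refl _, ?_, ?_, Or.inr ?_, Or.inl rfl⟩
      · simp only [tm]; omega
      · simp only [tm]; omega
      · simp [Tr.apexes]
    · obtain ⟨a1, a2, a3, a4, a5, a6, a7⟩ := ih₁ _ _ (h.D1 v) e he
      refine ⟨a1, a2, a3, by omega, a5, Or.inr ?_, ?_⟩
      · rcases a6 with a | a
        · rw [a]; simp [Tr.apexes]
        · simp [Tr.apexes, a]
      · rcases a7 with a | a
        · exact Or.inl a
        · right; simp [Tr.apexes, a]

/-- The two kinds of blob edges `(lo, up)` in the main part at `(l,u)`. -/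
structure GU (l u : AV V) (A : List (AV V)) (lo up : AV V) : Prop where
  m1 : lo = u ∨ lo ∈ A
  m2 : up ∈ A
  k : lo.k = up.k
  k1 : l.k < lo.k
  k2 : lo.k ≤ u.k
  o0 : 0 ≤ lo.o
  o1 : lo.o < up.o
  o2 : up.o = up.t
  t : lo.t < up.t
  p : up.p = lo.sideUp
  c : lo.k = u.k → u.o ≤ lo.o

structure GD (l u : AV V) (A : List (AV V)) (lo up : AV V) : Prop where
  m1 : up = l ∨ up ∈ A
  m2 : lo ∈ A
  k : lo.k = up.k
  k1 : l.k ≤ up.k
  k2 : up.k < u.k
  o0 : up.o ≤ 0
  o1 : lo.o < up.o
  o2 : lo.o = -lo.t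
  t : up.t < lo.t
  p : lo.p = up.sideDn
  c : up.k = l.k → up.o ≤ l.o

theorem gb (t : Tr V) : ∀ (l u : AV V), Ok l u → ∀ g ∈ t.blobs l u,
    GU l u (t.apexes l u) g.1 g.2.1 ∨ GD l u (t.apexes l u) g.1 g.2.1 := by
  induction t with
  | leaf => intro l u _ z hz; simp [Tr.blobs] at hz
  | M v t₁ t₂ ih₁ ih₂ =>
    intro l u h g hg
    have hk := h.k
    obtain ⟨b1, b2, b3, b4, b5, b6, b7⟩ := ab_M h v
    have hm : (apM v l u).k = (l.k + u.k) / 2 := rfl
    simp only [Tr.blobs, List.mem_append] at hg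
    rcases hg with hg | hg
    · rcases ih₁ _ _ (h.M1 v) g hg with a | a
      · left
        obtain ⟨a1, a2, a3, a4, a5, a6, a7, a8, a9, a10, a11⟩ := a
        refine ⟨?_, ?_, a3, a4, by linarith, a6, a7, a8, a9, a10, ?_⟩
        · right
          rcases a1 with a | a
          · rw [a]; simp [Tr.apexes]
          · simp [Tr.apexes, a]
        · simp [Tr.apexes, a2]
        · intro hh; linarith
      · right
        obtain ⟨a1, a2, a3, a4, a5, a6, a7, a8, a9, a10, a11⟩ := a
        refine ⟨?_, ?_, a3, a4, by linarith, a6, a7, a8, a9, a10, a11⟩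
        · rcases a1 with a | a
          · exact Or.inl a
          · right; simp [Tr.apexes, a]
        · simp [Tr.apexes, a2]
    · rcases ih₂ _ _ (h.M2 v) g hg with a | a
      · left
        obtain ⟨a1, a2, a3, a4, a5, a6, a7, a8, a9, a10, a11⟩ := a
        refine ⟨?_, ?_, a3, by linarith, a5, a6, a7, a8, a9, a10, a11⟩
        · rcases a1 with a | a
          · exact Or.inl a
          · right; simp [Tr.apexes, a]
        · simp [Tr.apexes, a2]
      · right
        obtain ⟨a1, a2, a3, a4, a5, a6, a7, a8, a9, a10, a11⟩ := a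
        refine ⟨?_, ?_, a3, by linarith, a5, a6, a7, a8, a9, a10, ?_⟩
        · right
          rcases a1 with a | a
          · rw [a]; simp [Tr.apexes]
          · simp [Tr.apexes, a]
        · simp [Tr.apexes, a2]
        · intro hh; linarith
  | U v t₁ t₂ ih₁ ih₂ =>
    intro l u h g hg
    have hk := h.k
    have huo := h.uo
    have huo' := h.uo'
    obtain ⟨b1, b2, b3, b4, b5, b6, b7⟩ := ab_U h v
    have hm : (apU v l u).k = u.k := rfl
    have ho : (apU v l u).o = (apU v l u).t := rfl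
    simp only [Tr.blobs, List.mem_cons] at hg
    rcases hg with rfl | hg
    · left
      refine ⟨Or.inl rfl, ?_, rfl, hk, le_refl _, huo, ?_, rfl, b4, rfl, fun _ => le_refl _⟩
      · simp [Tr.apexes]
      · rw [ho]; show u.o < _; omega
    · rcases ih₁ _ _ (h.U1 v) g hg with a | a
      · left
        obtain ⟨a1, a2, a3, a4, a5, a6, a7, a8, a9, a10, a11⟩ := a
        refine ⟨?_, ?_, a3, a4, a5, a6, a7, a8, a9, a10, ?_⟩
        · right
          rcases a1 with a | a
          · rw [a]; simp [Tr.apexes]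
          · simp [Tr.apexes, a]
        · simp [Tr.apexes, a2]
        · intro hh
          have := a11 (by rw [hh, hm])
          omega
      · right
        obtain ⟨a1, a2, a3, a4, a5, a6, a7, a8, a9, a10, a11⟩ := a
        refine ⟨?_, ?_, a3, a4, a5, a6, a7, a8, a9, a10, a11⟩
        · rcases a1 with a | a
          · exact Or.inl a
          · right; simp [Tr.apexes, a]
        · simp [Tr.apexes, a2]
  | D v t₁ t₂ ih₁ ih₂ =>
    intro l u h g hg
    have hk := h.k
    have hlo := h.lo
    have hlo' := h.lo'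
    obtain ⟨b1, b2, b3, b4, b5, b6, b7⟩ := ab_D h v
    have hm : (apD v l u).k = l.k := rfl
    have ho : (apD v l u).o = -(apD v l u).t := rfl
    simp only [Tr.blobs, List.mem_cons] at hg
    rcases hg with rfl | hg
    · right
      refine ⟨Or.inl rfl, ?_, rfl, le_refl _, hk, hlo, ?_, rfl, b3, rfl, fun _ => le_refl _⟩
      · simp [Tr.apexes]
      · rw [ho]; show _ < l.o; omega
    · rcases ih₁ _ _ (h.D1 v) g hg with a | a
      · left
        obtain ⟨a1, a2, a3, a4, a5, a6, a7, a8, a9, a10, a11⟩ := a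
        refine ⟨?_, ?_, a3, a4, a5, a6, a7, a8, a9, a10, a11⟩
        · rcases a1 with a | a
          · exact Or.inl a
          · right; simp [Tr.apexes, a]
        · simp [Tr.apexes, a2]
      · right
        obtain ⟨a1, a2, a3, a4, a5, a6, a7, a8, a9, a10, a11⟩ := a
        refine ⟨?_, ?_, a3, a4, a5, a6, a7, a8, a9, a10, ?_⟩
        · right
          rcases a1 with a | a
          · rw [a]; simp [Tr.apexes]
          · simp [Tr.apexes, a]
        · simp [Tr.apexes, a2]
        · intro hh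
          have := a11 (by rw [hh, hm])
          omega

end Pool.Agent.Helper4.UpLoc
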