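import Pool.Agent.Helper4.UpLoc.Main1

/-!
# The main part of a tree: pair properties
-/

namespace Pool.Agent.Helper4.UpLoc

variable {V : Type}

/-- distinct keys -/
def kd (z z' : AV V) : Prop := z.k = z'.k → z.o ≠ z'.o

instance kd_symm : Std.Symm (kd (V := V)) := ⟨fun _ _ h hk ho => h hk.symm ho.symm⟩

theorem kd_l {l u z : AV V} (h : Ok l u) (hz : AB l u z) : kd l z := by
  intro hk ho
  have h1 := hz.ol hk.symm
  have h2 := hz.t1
  have h3 := h.lo'
  omega

theorem kd_u {l u z : AV V} (h : Ok l u) (hz : AB l u z) : kd u z := by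
  intro hk ho
  have h1 := hz.ou hk.symm
  have h2 := hz.t2
  have h3 := h.uo'
  omega

theorem kd_12 {l m u z z' : AV V} (h1 : Ok l m) (hz : AB l m z) (hz' : AB m u z') : kd z z' := by
  intro hk ho
  have a1 := hz.k2
  have a2 := hz'.k1
  have a3 := hz.ou (le_antisymm a1 (hk ▸ a2))
  have a4 := hz'.ol (le_antisymm (hk ▸ a1) a2)
  have a5 := hz.t1
  have a6 := hz'.t1
  have a7 := h1.lt
  have a8 := h1.ut
  omega

theorem apexes_pairwise (t : Tr V) : ∀ (l u : AV V), Ok l u →
    (t.apexes l u).Pairwise kd := by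
  induction t with
  | leaf => intro l u _; simp [Tr.apexes]
  | M v t₁ t₂ ih₁ ih₂ =>
    intro l u h
    simp only [Tr.apexes, List.pairwise_cons, List.pairwise_append, List.mem_append]
    refine ⟨?_, ih₁ _ _ (h.M1 v), ih₂ _ _ (h.M2 v), ?_⟩
    · rintro z (hz | hz)
      · exact kd_u (h.M1 v) (ab _ _ _ (h.M1 v) _ hz)
      · exact kd_l (h.M2 v) (ab _ _ _ (h.M2 v) _ hz)
    · intro z hz z' hz'
      exact kd_12 (h.M1 v) (ab _ _ _ (h.M1 v) _ hz) (ab _ _ _ (h.M2 v) _ hz')
  | U v t₁ t₂ ih₁ ih₂ =>
    intro l u h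
    simp only [Tr.apexes, List.pairwise_cons]
    exact ⟨fun z hz => kd_u (h.U1 v) (ab _ _ _ (h.U1 v) _ hz), ih₁ _ _ (h.U1 v)⟩
  | D v t₁ t₂ ih₁ ih₂ =>
    intro l u h
    simp only [Tr.apexes, List.pairwise_cons]
    exact ⟨fun z hz => kd_l (h.D1 v) (ab _ _ _ (h.D1 v) _ hz), ih₁ _ _ (h.D1 v)⟩

/-- All vertices of the main part. -/
def Tr.vs (t : Tr V) (l u : AV V) : List (AV V) := l :: u :: t.apexes l u

theorem vs_pairwise (t : Tr V) {l u : AV V} (h : Ok l u) : (t.vs l u).Pairwise kd := by
  unfold Tr.vs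
  rw [List.pairwise_cons, List.pairwise_cons]
  refine ⟨?_, ?_, apexes_pairwise t l u h⟩
  · intro z hz
    rw [List.mem_cons] at hz
    rcases hz with rfl | hz
    · intro hk; exact absurd hk (ne_of_lt h.k)
    · exact kd_l h (ab _ _ _ h _ hz)
  · intro z hz
    exact kd_u h (ab _ _ _ h _ hz)

theorem vs_inj (t : Tr V) {l u : AV V} (h : Ok l u) {z z' : AV V} (hz : z ∈ t.vs l u)
    (hz' : z' ∈ t.vs l u) (hk : z.k = z'.k) (ho : z.o = z'.o) : z = z' := by
  by_contra hne
  exact (vs_pairwise t h).forall hz hz' hne hk ho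

/-- distinct times -/
def td (e e' : AV V × AV V) : Prop :=
  (e.1.k = e'.1.k → tm e ≠ tm e') ∧ (e.2.k = e'.2.k → tm e ≠ tm e')

instance td_symm : Std.Symm (td (V := V)) :=
  ⟨fun _ _ h => ⟨fun hk ho => h.1 hk.symm ho.symm, fun hk ho => h.2 hk.symm ho.symm⟩⟩

theorem strips_pairwise (t : Tr V) : ∀ (l u : AV V), Ok l u →
    (t.strips l u).Pairwise td := by
  induction t with
  | leaf => intro l u _; simp [Tr.strips]
  | M v t₁ t₂ ih₁ ih₂ =>
    intro l u h
    obtain ⟨b1, b2, b3, b4, b5, b6, b7⟩ := ab_M h v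
    have hk := h.k
    have hm : (apM v l u).k = (l.k + u.k) / 2 := rfl
    simp only [Tr.strips, List.pairwise_cons, List.pairwise_append, List.mem_append,
      List.mem_cons]
    refine ⟨?_, ?_, ih₁ _ _ (h.M1 v), ih₂ _ _ (h.M2 v), ?_⟩
    · rintro e (rfl | he | he)
      · refine ⟨fun hh => ?_, fun hh => ?_⟩
        · simp only at hh; linarith
        · simp only at hh; linarith
      · have a := sb _ _ _ (h.M1 v) e he
        have a1 := a.t1
        have a2 := a.t2
        refine ⟨fun _ => ?_, fun _ => ?_⟩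
        · show max l.t (apM v l u).t ≠ _; omega
        · show max l.t (apM v l u).t ≠ _; omega
      · have a := sb _ _ _ (h.M2 v) e he
        have a1 := a.t1
        have a2 := a.t2
        refine ⟨fun _ => ?_, fun _ => ?_⟩
        · show max l.t (apM v l u).t ≠ _; omega
        · show max l.t (apM v l u).t ≠ _; omega
    · rintro e (he | he)
      · have a := sb _ _ _ (h.M1 v) e he
        have a1 := a.t1
        have a2 := a.t2
        refine ⟨fun _ => ?_, fun _ => ?_⟩
        · show max (apM v l u).t u.t ≠ _; omega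
        · show max (apM v l u).t u.t ≠ _; omega
      · have a := sb _ _ _ (h.M2 v) e he
        have a1 := a.t1
        have a2 := a.t2
        refine ⟨fun _ => ?_, fun _ => ?_⟩
        · show max (apM v l u).t u.t ≠ _; omega
        · show max (apM v l u).t u.t ≠ _; omega
    · intro e he e' he'
      have a := sb _ _ _ (h.M1 v) e he
      have a' := sb _ _ _ (h.M2 v) e' he'
      have a1 := a.k
      have a2 := a.k2
      have a3 := a'.k1
      have a4 := a'.k
      refine ⟨fun hh => ?_, fun hh => ?_⟩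
      · linarith
      · linarith
  | U v t₁ t₂ ih₁ ih₂ =>
    intro l u h
    obtain ⟨b1, b2, b3, b4, b5, b6, b7⟩ := ab_U h v
    simp only [Tr.strips, List.pairwise_cons]
    refine ⟨?_, ih₁ _ _ (h.U1 v)⟩
    intro e he
    have a := sb _ _ _ (h.U1 v) e he
    have a1 := a.t1
    have a2 := a.t2
    refine ⟨fun _ => ?_, fun _ => ?_⟩
    · show max l.t (apU v l u).t ≠ _; omega
    · show max l.t (apU v l u).t ≠ _; omega
  | D v t₁ t₂ ih₁ ih₂ =>
    intro l u h
    obtain ⟨b1, b2, b3, b4, b5, b6, b7⟩ := ab_D h v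
    simp only [Tr.strips, List.pairwise_cons]
    refine ⟨?_, ih₁ _ _ (h.D1 v)⟩
    intro e he
    have a := sb _ _ _ (h.D1 v) e he
    have a1 := a.t1
    have a2 := a.t2
    refine ⟨fun _ => ?_, fun _ => ?_⟩
    · show max (apD v l u).t u.t ≠ _; omega
    · show max (apD v l u).t u.t ≠ _; omega

theorem strips_excl (t : Tr V) : ∀ (l u : AV V), Ok l u → ∀ e ∈ t.strips l u,
    ∀ z ∈ t.apexes l u, e.1.k < z.k → z.k < e.2.k → tm e < z.t := by
  induction t with
  | leaf => intro l u _ e he; simp [Tr.strips] at he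
  | M v t₁ t₂ ih₁ ih₂ =>
    intro l u h e he z hz h1 h2
    obtain ⟨b1, b2, b3, b4, b5, b6, b7⟩ := ab_M h v
    simp only [Tr.strips, List.mem_cons, List.mem_append] at he
    simp only [Tr.apexes, List.mem_cons, List.mem_append] at hz
    rcases he with rfl | rfl | he | he
    · rcases hz with rfl | hz | hz
      · exact absurd h2 (lt_irrefl _)
      · have a := ab _ _ _ (h.M1 v) z hz
        have a1 := a.t1
        have a2 := a.t2
        show max l.t (apM v l u).t < _; omega
      · have a := ab _ _ _ (h.M2 v) z hz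
        have a1 := a.k1
        exact absurd h2 (not_lt.2 a1)
    · rcases hz with rfl | hz | hz
      · exact absurd h1 (lt_irrefl _)
      · have a := ab _ _ _ (h.M1 v) z hz
        have a1 := a.k2
        exact absurd h1 (not_lt.2 a1)
      · have a := ab _ _ _ (h.M2 v) z hz
        have a1 := a.t1
        have a2 := a.t2
        show max (apM v l u).t u.t < _; omega
    · have s := sb _ _ _ (h.M1 v) e he
      have s2 := s.k2
      rcases hz with rfl | hz | hz
      · exact absurd h2 (not_lt.2 s2)
      · exact ih₁ _ _ (h.M1 v) e he z hz h1 h2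
      · have a := ab _ _ _ (h.M2 v) z hz
        have a1 := a.k1
        exact absurd h2 (not_lt.2 (s2.trans a1))
    · have s := sb _ _ _ (h.M2 v) e he
      have s2 := s.k1
      rcases hz with rfl | hz | hz
      · exact absurd h1 (not_lt.2 s2)
      · have a := ab _ _ _ (h.M1 v) z hz
        have a1 := a.k2
        exact absurd h1 (not_lt.2 (a1.trans s2))
      · exact ih₂ _ _ (h.M2 v) e he z hz h1 h2
  | U v t₁ t₂ ih₁ ih₂ =>
    intro l u h e he z hz h1 h2
    simp only [Tr.strips, List.mem_cons] at he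
    simp only [Tr.apexes, List.mem_cons] at hz
    rcases he with rfl | he
    · rcases hz with rfl | hz
      · exact absurd h2 (lt_irrefl _)
      · have a := ab _ _ _ (h.U1 v) z hz
        have a1 := a.t1
        have a2 := a.t2
        show max l.t (apU v l u).t < _; omega
    · have s := sb _ _ _ (h.U1 v) e he
      have s2 := s.k2
      rcases hz with rfl | hz
      · exact absurd h2 (not_lt.2 s2)
      · exact ih₁ _ _ (h.U1 v) e he z hz h1 h2
  | D v t₁ t₂ ih₁ ih₂ =>
    intro l u h e he z hz h1 h2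
    simp only [Tr.strips, List.mem_cons] at he
    simp only [Tr.apexes, List.mem_cons] at hz
    rcases he with rfl | he
    · rcases hz with rfl | hz
      · exact absurd h1 (lt_irrefl _)
      · have a := ab _ _ _ (h.D1 v) z hz
        have a1 := a.t1
        have a2 := a.t2
        show max (apD v l u).t u.t < _; omega
    · have s := sb _ _ _ (h.D1 v) e he
      have s2 := s.k1
      rcases hz with rfl | hz
      · exact absurd h1 (not_lt.2 s2)
      · exact ih₁ _ _ (h.D1 v) e he z hz h1 h2

/-- No vertex lies strictly between the endpoints of a blob edge. -/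
theorem blobs_adj (t : Tr V) : ∀ (l u : AV V), Ok l u → ∀ g ∈ t.blobs l u,
    ∀ z ∈ t.vs l u, z.k = g.1.k → ¬ (g.1.o < z.o ∧ z.o < g.2.1.o) := by
  induction t with
  | leaf => intro l u _ g hg; simp [Tr.blobs] at hg
  | M v t₁ t₂ ih₁ ih₂ =>
    intro l u h g hg z hz hk ⟨h1, h2⟩
    have hm : (apM v l u).k = (l.k + u.k) / 2 := rfl
    have hlu := h.k
    obtain ⟨b1, b2, b3, b4, b5, b6, b7⟩ := ab_M h v
    simp only [Tr.blobs, List.mem_append] at hg
    simp only [Tr.vs, Tr.apexes, List.mem_cons, List.mem_append] at hz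
    rcases hg with hg | hg
    · have hih := ih₁ _ _ (h.M1 v) g hg
      simp only [Tr.vs, List.mem_cons] at hih
      have hgk : g.1.k ≤ (apM v l u).k := by
        rcases gb _ _ _ (h.M1 v) g hg with a | a
        · exact a.k2
        · rw [a.k]; exact a.k2.le
      rcases hz with rfl | rfl | rfl | hz | hz
      · exact hih _ (Or.inl rfl) hk ⟨h1, h2⟩
      · linarith
      · exact hih _ (Or.inr (Or.inl rfl)) hk ⟨h1, h2⟩
      · exact hih _ (Or.inr (Or.inr hz)) hk ⟨h1, h2⟩
      · have a := ab _ _ _ (h.M2 v) z hz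
        have a1 := a.k1
        have e1 : g.1.k = (apM v l u).k := le_antisymm hgk (by rw [← hk]; exact a1)
        have a2 := a.ol (hk.trans e1)
        have a3 := a.t1
        have a4 := (h.M2 v).lt
        rcases gb _ _ _ (h.M1 v) g hg with b | b
        · have := b.o0; omega
        · have c1 := b.k2; have c2 := b.k; linarith
    · have hih := ih₂ _ _ (h.M2 v) g hg
      simp only [Tr.vs, List.mem_cons] at hih
      have hgk : (apM v l u).k ≤ g.1.k := by
        rcases gb _ _ _ (h.M2 v) g hg with a | a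
        · exact a.k1.le
        · rw [a.k]; exact a.k1
      rcases hz with rfl | rfl | rfl | hz | hz
      · linarith
      · exact hih _ (Or.inr (Or.inl rfl)) hk ⟨h1, h2⟩
      · exact hih _ (Or.inl rfl) hk ⟨h1, h2⟩
      · have a := ab _ _ _ (h.M1 v) z hz
        have a1 := a.k2
        have e1 : g.1.k = (apM v l u).k := le_antisymm (by rw [← hk]; exact a1) hgk
        have a2 := a.ou (hk.trans e1)
        have a3 := a.t2
        have a4 := (h.M2 v).lt
        rcases gb _ _ _ (h.M2 v) g hg with b | b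
        · have c1 := b.k1; linarith
        · have := b.o0; omega
      · exact hih _ (Or.inr (Or.inr hz)) hk ⟨h1, h2⟩
  | U v t₁ t₂ ih₁ ih₂ =>
    intro l u h g hg z hz hk ⟨h1, h2⟩
    have hm : (apU v l u).k = u.k := rfl
    have ho : (apU v l u).o = (apU v l u).t := rfl
    have hlu := h.k
    have huo := h.uo'
    obtain ⟨b1, b2, b3, b4, b5, b6, b7⟩ := ab_U h v
    simp only [Tr.blobs, List.mem_cons] at hg
    simp only [Tr.vs, Tr.apexes, List.mem_cons] at hz
    rcases hg with rfl | hg
    · simp only at hk h1 h2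
      rcases hz with rfl | rfl | rfl | hz
      · linarith
      · omega
      · omega
      · have a := ab _ _ _ (h.U1 v) z hz
        have a2 := a.ou hk
        have a3 := a.t2
        omega
    · have hih := ih₁ _ _ (h.U1 v) g hg
      simp only [Tr.vs, List.mem_cons] at hih
      rcases hz with rfl | rfl | rfl | hz
      · exact hih _ (Or.inl rfl) hk ⟨h1, h2⟩
      · rcases gb _ _ _ (h.U1 v) g hg with b | b
        · have c1 := b.c (by rw [← hk, hm])
          omega
        · have c1 := b.k2; have c2 := b.k; linarith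
      · exact hih _ (Or.inr (Or.inl rfl)) hk ⟨h1, h2⟩
      · exact hih _ (Or.inr (Or.inr hz)) hk ⟨h1, h2⟩
  | D v t₁ t₂ ih₁ ih₂ =>
    intro l u h g hg z hz hk ⟨h1, h2⟩
    have hm : (apD v l u).k = l.k := rfl
    have ho : (apD v l u).o = -(apD v l u).t := rfl
    have hlu := h.k
    have hlo := h.lo'
    obtain ⟨b1, b2, b3, b4, b5, b6, b7⟩ := ab_D h v
    simp only [Tr.blobs, List.mem_cons] at hg
    simp only [Tr.vs, Tr.apexes, List.mem_cons] at hz
    rcases hg with rfl | hg
    · simp only at hk h1 h2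
      rcases hz with rfl | rfl | rfl | hz
      · omega
      · linarith
      · omega
      · have a := ab _ _ _ (h.D1 v) z hz
        have a2 := a.ol hk
        have a3 := a.t1
        omega
    · have hih := ih₁ _ _ (h.D1 v) g hg
      simp only [Tr.vs, List.mem_cons] at hih
      rcases hz with rfl | rfl | rfl | hz
      · rcases gb _ _ _ (h.D1 v) g hg with b | b
        · have c1 := b.k1; linarith
        · have c2 := b.k
          have c1 := b.c (by rw [← c2, ← hk, hm])
          omega
      · exact hih _ (Or.inr (Or.inl rfl)) hk ⟨h1, h2⟩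
      · exact hih _ (Or.inl rfl) hk ⟨h1, h2⟩
      · exact hih _ (Or.inr (Or.inr hz)) hk ⟨h1, h2⟩

end Pool.Agent.Helper4.UpLoc
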