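import Pool.Agent.Helper4.UpLoc.Main2

/-!
# The main part of a tree: blobs, life lengths, decomposition of the edges
-/

namespace Pool.Agent.Helper4.UpLoc

variable {V : Type}

/-- newer / older endpoint of a blob edge -/
def nw (g : AV V × AV V × Tr V) : AV V := if 0 < g.2.1.o then g.2.1 else g.1
def od (g : AV V × AV V × Tr V) : AV V := if 0 < g.2.1.o then g.1 else g.2.1

theorem GU.up_pos {l u : AV V} {A : List (AV V)} {lo up : AV V} (h : GU l u A lo up) :
    0 < up.o := lt_of_le_of_lt h.o0 h.o1

theorem GU.nw {l u : AV V} {A : List (AV V)} {g : AV V × AV V × Tr V}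
    (h : GU l u A g.1 g.2.1) : nw g = g.2.1 := if_pos h.up_pos
theorem GU.od {l u : AV V} {A : List (AV V)} {g : AV V × AV V × Tr V}
    (h : GU l u A g.1 g.2.1) : od g = g.1 := if_pos h.up_pos
theorem GD.nw {l u : AV V} {A : List (AV V)} {g : AV V × AV V × Tr V}
    (h : GD l u A g.1 g.2.1) : nw g = g.1 := if_neg (not_lt.2 h.o0)
theorem GD.od {l u : AV V} {A : List (AV V)} {g : AV V × AV V × Tr V}
    (h : GD l u A g.1 g.2.1) : od g = g.2.1 := if_neg (not_lt.2 h.o0)

theorem nw_mem {t : Tr V} {l u : AV V} (h : Ok l u) {g} (hg : g ∈ t.blobs l u) :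
    nw g ∈ t.apexes l u := by
  rcases gb _ _ _ h g hg with a | a
  · rw [a.nw]; exact a.m2
  · rw [a.nw]; exact a.m2

theorem od_mem {t : Tr V} {l u : AV V} (h : Ok l u) {g} (hg : g ∈ t.blobs l u) :
    od g ∈ t.vs l u := by
  unfold Tr.vs
  rw [List.mem_cons, List.mem_cons]
  rcases gb _ _ _ h g hg with a | a
  · rw [a.od]
    rcases a.m1 with b | b
    · exact Or.inr (Or.inl b)
    · exact Or.inr (Or.inr b)
  · rw [a.od]
    rcases a.m1 with b | b
    · exact Or.inl b
    · exact Or.inr (Or.inr b)

/-- Two blob edges: different new endpoints, and if the old endpoint is the same, then exactly one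
of them is of type `U`. -/
def bd (g g' : AV V × AV V × Tr V) : Prop :=
  nw g ≠ nw g' ∧ (od g = od g' → ¬ (0 < g.2.1.o ↔ 0 < g'.2.1.o))

instance bd_symm : Std.Symm (bd (V := V)) :=
  ⟨fun _ _ h => ⟨h.1.symm, fun ho hi => h.2 ho.symm hi.symm⟩⟩

theorem ne_of_ab_t {l u z : AV V} (hz : AB l u z) : z ≠ l ∧ z ≠ u := by
  have h1 := hz.t1
  have h2 := hz.t2
  refine ⟨?_, ?_⟩
  · rintro rfl; omega
  · rintro rfl; omega

theorem blobs_pairwise (t : Tr V) : ∀ (l u : AV V), Ok l u →
    (t.blobs l u).Pairwise bd := by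
  induction t with
  | leaf => intro l u _; simp [Tr.blobs]
  | M v t₁ t₂ ih₁ ih₂ =>
    intro l u h
    simp only [Tr.blobs, List.pairwise_append]
    refine ⟨ih₁ _ _ (h.M1 v), ih₂ _ _ (h.M2 v), ?_⟩
    intro g hg g' hg'
    refine ⟨?_, ?_⟩
    · intro he
      have h1 := ab _ _ _ (h.M1 v) _ (nw_mem (h.M1 v) hg)
      have h2 := ab _ _ _ (h.M2 v) _ (nw_mem (h.M2 v) hg')
      exact kd_12 (h.M1 v) h1 h2 (congrArg AV.k he) (congrArg AV.o he)
    · intro he hi
      rcases gb _ _ _ (h.M1 v) g hg with a | a
      · have hp := hi.1 a.up_pos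
        rcases gb _ _ _ (h.M2 v) g' hg' with a' | a'
        · rw [a.od, a'.od] at he
          have h1 := a.k2
          have h2 := a'.k1
          rw [he] at h1
          linarith
        · have := a'.o0; omega
      · have hp : ¬ 0 < g'.2.1.o := fun hh => absurd (hi.2 hh) (not_lt.2 a.o0)
        rcases gb _ _ _ (h.M2 v) g' hg' with a' | a'
        · exact hp a'.up_pos
        · rw [a.od, a'.od] at he
          have h1 := a.k2
          have h2 := a'.k1
          rw [he] at h1
          linarith
  | U v t₁ t₂ ih₁ ih₂ =>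
    intro l u h
    simp only [Tr.blobs, List.pairwise_cons]
    refine ⟨?_, ih₁ _ _ (h.U1 v)⟩
    intro g hg
    have ha := ab_U h v
    have ho : 0 < (apU v l u).o := by
      have h1 := h.lt
      have h2 := ha.t1
      show 0 < (apU v l u).t
      omega
    have e1 : nw (u, apU v l u, t₂) = apU v l u := if_pos ho
    have e2 : od (u, apU v l u, t₂) = u := if_pos ho
    refine ⟨?_, ?_⟩
    · rw [e1]
      intro he
      have h1 := ne_of_ab_t (ab _ _ _ (h.U1 v) _ (nw_mem (h.U1 v) hg))
      exact h1.2 he.symm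
    · intro he
      exfalso
      rw [e2] at he
      have h1 := od_mem (h.U1 v) hg
      rw [← he] at h1
      unfold Tr.vs at h1
      rw [List.mem_cons, List.mem_cons] at h1
      have h2 := ha.t2
      have hk := h.k
      rcases h1 with h1 | h1 | h1
      · rw [h1] at hk; exact lt_irrefl _ hk
      · have := congrArg AV.t h1; omega
      · have := (ab _ _ _ (h.U1 v) _ h1).t2; omega
  | D v t₁ t₂ ih₁ ih₂ =>
    intro l u h
    simp only [Tr.blobs, List.pairwise_cons]
    refine ⟨?_, ih₁ _ _ (h.D1 v)⟩
    intro g hg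
    have ha := ab_D h v
    have ho : ¬ 0 < l.o := not_lt.2 h.lo
    have e1 : nw (apD v l u, l, t₂) = apD v l u := if_neg ho
    have e2 : od (apD v l u, l, t₂) = l := if_neg ho
    refine ⟨?_, ?_⟩
    · rw [e1]
      intro he
      have h1 := ne_of_ab_t (ab _ _ _ (h.D1 v) _ (nw_mem (h.D1 v) hg))
      exact h1.1 he.symm
    · intro he
      exfalso
      rw [e2] at he
      have h1 := od_mem (h.D1 v) hg
      rw [← he] at h1
      unfold Tr.vs at h1
      rw [List.mem_cons, List.mem_cons] at h1
      have h2 := ha.t1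
      have hk := h.k
      rcases h1 with h1 | h1 | h1
      · have := congrArg AV.t h1; omega
      · rw [h1] at hk; exact lt_irrefl _ hk
      · have := (ab _ _ _ (h.D1 v) _ h1).t1; omega

/-- Side of a blob edge (`true` = right). -/
def side (g : AV V × AV V × Tr V) : Bool := (nw g).p

theorem side_ne {t : Tr V} {l u : AV V} (h : Ok l u) {g g'} (hg : g ∈ t.blobs l u)
    (hg' : g' ∈ t.blobs l u) (hne : g ≠ g') {z : AV V} (hz : z = nw g ∨ z = od g)
    (hz' : z = nw g' ∨ z = od g') : side g ≠ side g' := by
  obtain ⟨h1, h2⟩ := (blobs_pairwise t l u h).forall hg hg' hne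
  have key : ∀ g₁ ∈ t.blobs l u, ∀ g₂ ∈ t.blobs l u, nw g₁ = od g₂ → side g₁ ≠ side g₂ := by
    intro g₁ hg₁ g₂ hg₂ he
    have hne0 : (nw g₁).o ≠ 0 := by
      rcases gb _ _ _ h g₁ hg₁ with a | a
      · rw [a.nw]; exact a.up_pos.ne'
      · rw [a.nw]; have := a.o1; have := a.o0; omega
    unfold side
    rcases gb _ _ _ h g₂ hg₂ with a | a
    · rw [a.nw, a.p, ← a.od, ← he]
      unfold AV.sideUp
      rw [if_neg hne0]
      cases (nw g₁).p <;> simp
    · rw [a.nw, a.p, ← a.od, ← he]
      unfold AV.sideDn
      rw [if_neg hne0]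
      cases (nw g₁).p <;> simp
  rcases hz with rfl | rfl
  · rcases hz' with hz' | hz'
    · exact absurd hz' h1
    · exact key _ hg _ hg' hz'
  · rcases hz' with hz' | hz'
    · exact (key _ hg' _ hg hz'.symm).symm
    · have h3 := h2 hz'
      unfold side
      rcases gb _ _ _ h g hg with a | a
      · rcases gb _ _ _ h g' hg' with a' | a'
        · exact absurd ⟨fun _ => a'.up_pos, fun _ => a.up_pos⟩ h3
        · rw [a.od, a'.od] at hz'
          have h4 := a.o0
          have h5 := a'.o0
          rw [hz'] at h4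
          have h6 : g'.2.1.o = 0 := le_antisymm h5 h4
          rw [a.nw, a'.nw, a.p, a'.p, hz']
          unfold AV.sideUp AV.sideDn
          rw [if_pos h6, if_pos h6]
          simp
      · rcases gb _ _ _ h g' hg' with a' | a'
        · rw [a.od, a'.od] at hz'
          have h4 := a.o0
          have h5 := a'.o0
          rw [hz'] at h4
          have h6 : g'.1.o = 0 := le_antisymm h4 h5
          rw [a.nw, a'.nw, a.p, a'.p, hz']
          unfold AV.sideUp AV.sideDn
          rw [if_pos h6, if_pos h6]
          simp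
        · exfalso
          apply h3
          exact ⟨fun hh => absurd hh (not_lt.2 a.o0), fun hh => absurd hh (not_lt.2 a'.o0)⟩

/-- The main edges (strips and blob edges). -/
def Tr.me (t : Tr V) (l u : AV V) : List (AV V × AV V) :=
  t.strips l u ++ (t.blobs l u).map fun g => (g.1, g.2.1)

theorem me_M (v : V) (t₁ t₂ : Tr V) (l u : AV V) (e : AV V × AV V) :
    e ∈ (Tr.M v t₁ t₂).me l u ↔ e = (l, apM v l u) ∨ e = (apM v l u, u) ∨
      e ∈ t₁.me l (apM v l u) ∨ e ∈ t₂.me (apM v l u) u := by
  simp only [Tr.me, Tr.strips, Tr.blobs, List.mem_append, List.mem_cons, List.map_append]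
  tauto

theorem me_U (v : V) (t₁ t₂ : Tr V) (l u : AV V) (e : AV V × AV V) :
    e ∈ (Tr.U v t₁ t₂).me l u ↔ e = (l, apU v l u) ∨ e = (u, apU v l u) ∨
      e ∈ t₁.me l (apU v l u) := by
  simp only [Tr.me, Tr.strips, Tr.blobs, List.mem_append, List.mem_cons, List.map_cons]
  tauto

theorem me_D (v : V) (t₁ t₂ : Tr V) (l u : AV V) (e : AV V × AV V) :
    e ∈ (Tr.D v t₁ t₂).me l u ↔ e = (apD v l u, u) ∨ e = (apD v l u, l) ∨
      e ∈ t₁.me (apD v l u) u := by
  simp only [Tr.me, Tr.strips, Tr.blobs, List.mem_append, List.mem_cons, List.map_cons]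
  tauto

theorem me_vs {t : Tr V} {l u : AV V} (h : Ok l u) {e} (he : e ∈ t.me l u) :
    e.1 ∈ t.vs l u ∧ e.2 ∈ t.vs l u := by
  unfold Tr.me at he
  rw [List.mem_append, List.mem_map] at he
  unfold Tr.vs
  simp only [List.mem_cons]
  rcases he with he | ⟨g, hg, rfl⟩
  · obtain ⟨-, -, -, -, -, h1, h2⟩ := sb _ _ _ h e he
    tauto
  · rcases gb _ _ _ h g hg with a | a
    · have h1 := a.m1; have h2 := a.m2; simp only; tauto
    · have h1 := a.m1; have h2 := a.m2; simp only; tauto

/-- `z` is an endpoint of `e`. -/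
def inc (z : AV V) (e : AV V × AV V) : Prop := z = e.1 ∨ z = e.2

theorem inc_vs {t : Tr V} {l u : AV V} (h : Ok l u) {e z} (he : e ∈ t.me l u) (hz : inc z e) :
    z ∈ t.vs l u := by
  rcases hz with rfl | rfl
  · exact (me_vs h he).1
  · exact (me_vs h he).2

variable [DecidableEq V]

theorem deg_cons (e : V × V) (L : List (V × V)) (w : V) :
    deg (e :: L) w = deg L w + if Inc w e then 1 else 0 := by
  unfold deg
  rw [List.countP_cons]
  simp

theorem deg_append (L L' : List (V × V)) (w : V) : deg (L ++ L') w = deg L w + deg L' w := by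
  unfold deg
  rw [List.countP_append]

theorem life_root (t : Tr V) : ∀ (l u : AV V), Ok l u → ∀ e ∈ t.me l u,
    (inc l e → tm e ≤ max l.t u.t + deg (t.edges l.lab u.lab) l.lab) ∧
    (inc u e → tm e ≤ max l.t u.t + deg (t.edges l.lab u.lab) u.lab) := by
  induction t with
  | leaf => intro l u _ e he; simp [Tr.me, Tr.strips, Tr.blobs] at he
  | M v t₁ t₂ ih₁ ih₂ =>
    intro l u h e he
    have hk := h.k
    have hM := ab_M h v
    obtain ⟨b1, b2, b3, b4, b5, b6, b7⟩ := hM
    have hm : (apM v l u).k = (l.k + u.k) / 2 := rfl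
    have hmt : (apM v l u).t = max l.t u.t + 1 := rfl
    have hlab : (apM v l u).lab = v := rfl
    have d1 : deg ((Tr.M v t₁ t₂).edges l.lab u.lab) l.lab ≥
        1 + deg (t₁.edges l.lab v) l.lab := by
      simp only [Tr.edges, deg_cons, deg_append, Inc, true_or, if_true]
      omega
    have d2 : deg ((Tr.M v t₁ t₂).edges l.lab u.lab) u.lab ≥
        1 + deg (t₂.edges v u.lab) u.lab := by
      simp only [Tr.edges, deg_cons, deg_append, Inc, or_true, if_true]
      omega
    rw [me_M] at he
    rcases he with rfl | rfl | he | he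
    · refine ⟨fun _ => ?_, fun _ => ?_⟩ <;> simp only [tm] <;> omega
    · refine ⟨fun _ => ?_, fun _ => ?_⟩ <;> simp only [tm] <;> omega
    · have a := ih₁ _ _ (h.M1 v) e he
      rw [hlab] at a
      refine ⟨fun hi => ?_, fun hi => ?_⟩
      · have := a.1 hi; omega
      · exfalso
        have h1 := inc_vs (h.M1 v) he hi
        simp only [Tr.vs, List.mem_cons] at h1
        rcases h1 with h1 | h1 | h1
        · rw [h1] at hk; exact lt_irrefl _ hk
        · have := congrArg AV.t h1; omega
        · have := (ab _ _ _ (h.M1 v) _ h1).k2; linarith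
    · have a := ih₂ _ _ (h.M2 v) e he
      rw [hlab] at a
      refine ⟨fun hi => ?_, fun hi => ?_⟩
      · exfalso
        have h1 := inc_vs (h.M2 v) he hi
        simp only [Tr.vs, List.mem_cons] at h1
        rcases h1 with h1 | h1 | h1
        · have := congrArg AV.t h1; omega
        · rw [h1] at hk; exact lt_irrefl _ hk
        · have := (ab _ _ _ (h.M2 v) _ h1).k1; linarith
      · have := a.2 hi; omega
  | U v t₁ t₂ ih₁ ih₂ =>
    intro l u h e he
    have hk := h.k
    obtain ⟨b1, b2, b3, b4, b5, b6, b7⟩ := ab_U h v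
    have hmt : (apU v l u).t = max l.t u.t + 1 := rfl
    have hlab : (apU v l u).lab = v := rfl
    have d1 : deg ((Tr.U v t₁ t₂).edges l.lab u.lab) l.lab ≥
        1 + deg (t₁.edges l.lab v) l.lab := by
      simp only [Tr.edges, deg_cons, deg_append, Inc, true_or, if_true]
      omega
    have d2 : deg ((Tr.U v t₁ t₂).edges l.lab u.lab) u.lab ≥ 1 := by
      simp only [Tr.edges, deg_cons, deg_append, Inc, true_or, if_true]
      omega
    rw [me_U] at he
    rcases he with rfl | rfl | he
    · refine ⟨fun _ => ?_, fun _ => ?_⟩ <;> simp only [tm] <;> omega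
    · refine ⟨fun _ => ?_, fun _ => ?_⟩ <;> simp only [tm] <;> omega
    · have a := ih₁ _ _ (h.U1 v) e he
      rw [hlab] at a
      refine ⟨fun hi => ?_, fun hi => ?_⟩
      · have := a.1 hi; omega
      · exfalso
        have h1 := inc_vs (h.U1 v) he hi
        simp only [Tr.vs, List.mem_cons] at h1
        rcases h1 with h1 | h1 | h1
        · rw [h1] at hk; exact lt_irrefl _ hk
        · have := congrArg AV.t h1; omega
        · have := (ab _ _ _ (h.U1 v) _ h1).t2; omega
  | D v t₁ t₂ ih₁ ih₂ =>
    intro l u h e he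
    have hk := h.k
    obtain ⟨b1, b2, b3, b4, b5, b6, b7⟩ := ab_D h v
    have hmt : (apD v l u).t = max l.t u.t + 1 := rfl
    have hlab : (apD v l u).lab = v := rfl
    have d1 : deg ((Tr.D v t₁ t₂).edges l.lab u.lab) u.lab ≥
        1 + deg (t₁.edges v u.lab) u.lab := by
      simp only [Tr.edges, deg_cons, deg_append, Inc, or_true, if_true]
      omega
    have d2 : deg ((Tr.D v t₁ t₂).edges l.lab u.lab) l.lab ≥ 1 := by
      simp only [Tr.edges, deg_cons, deg_append, Inc, or_true, if_true]
      omega
    rw [me_D] at he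
    rcases he with rfl | rfl | he
    · refine ⟨fun _ => ?_, fun _ => ?_⟩ <;> simp only [tm] <;> omega
    · refine ⟨fun _ => ?_, fun _ => ?_⟩ <;> simp only [tm] <;> omega
    · have a := ih₁ _ _ (h.D1 v) e he
      rw [hlab] at a
      refine ⟨fun hi => ?_, fun hi => ?_⟩
      · exfalso
        have h1 := inc_vs (h.D1 v) he hi
        simp only [Tr.vs, List.mem_cons] at h1
        rcases h1 with h1 | h1 | h1
        · have := congrArg AV.t h1; omega
        · rw [h1] at hk; exact lt_irrefl _ hk
        · have := (ab _ _ _ (h.D1 v) _ h1).t1; omega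
      · have := a.2 hi; omega

theorem life_apex (t : Tr V) : ∀ (l u : AV V), Ok l u → ∀ z ∈ t.apexes l u, ∀ e ∈ t.me l u,
    inc z e → tm e ≤ z.t + deg (t.edges l.lab u.lab) z.lab := by
  induction t with
  | leaf => intro l u _ z hz; simp [Tr.apexes] at hz
  | M v t₁ t₂ ih₁ ih₂ =>
    intro l u h z hz e he hi
    have hk := h.k
    obtain ⟨b1, b2, b3, b4, b5, b6, b7⟩ := ab_M h v
    have hmt : (apM v l u).t = max l.t u.t + 1 := rfl
    have hlab : (apM v l u).lab = v := rfl
    have d : ∀ w, deg ((Tr.M v t₁ t₂).edges l.lab u.lab) w ≥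
        deg (t₁.edges l.lab v) w + deg (t₂.edges v u.lab) w := by
      intro w
      simp only [Tr.edges, deg_cons, deg_append]
      omega
    simp only [Tr.apexes, List.mem_cons, List.mem_append] at hz
    rw [me_M] at he
    have nm1 : ∀ z ∈ t₁.apexes l (apM v l u), z ∉ t₂.vs (apM v l u) u := by
      intro z hz hz'
      simp only [Tr.vs, List.mem_cons] at hz'
      have a := ab _ _ _ (h.M1 v) _ hz
      rcases hz' with rfl | rfl | hz'
      · exact (ne_of_ab_t a).2 rfl
      · have := a.t2; omega
      · exact kd_12 (h.M1 v) a (ab _ _ _ (h.M2 v) _ hz') rfl rfl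
    have nm2 : ∀ z ∈ t₂.apexes (apM v l u) u, z ∉ t₁.vs l (apM v l u) := by
      intro z hz hz'
      simp only [Tr.vs, List.mem_cons] at hz'
      have a := ab _ _ _ (h.M2 v) _ hz
      rcases hz' with rfl | rfl | hz'
      · have := a.t1; omega
      · exact (ne_of_ab_t a).1 rfl
      · exact kd_12 (h.M1 v) (ab _ _ _ (h.M1 v) _ hz') a rfl rfl
    rcases hz with rfl | hz | hz
    · rcases he with rfl | rfl | he | he
      · simp only [tm]; omega
      · simp only [tm]; omega
      · have a := (life_root t₁ _ _ (h.M1 v) e he).2 hi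
        rw [hlab] at a ⊢
        have := d v
        omega
      · have a := (life_root t₂ _ _ (h.M2 v) e he).1 hi
        rw [hlab] at a ⊢
        have := d v
        omega
    · have az := ab _ _ _ (h.M1 v) _ hz
      have a1 := az.t1
      have a2 := az.t2
      rcases he with rfl | rfl | he | he
      · simp only [tm]; omega
      · simp only [tm]; omega
      · have a := ih₁ _ _ (h.M1 v) z hz e he hi
        rw [hlab] at a
        have := d z.lab
        omega
      · exact absurd (inc_vs (h.M2 v) he hi) (nm1 z hz)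
    · have az := ab _ _ _ (h.M2 v) _ hz
      have a1 := az.t1
      have a2 := az.t2
      rcases he with rfl | rfl | he | he
      · simp only [tm]; omega
      · simp only [tm]; omega
      · exact absurd (inc_vs (h.M1 v) he hi) (nm2 z hz)
      · have a := ih₂ _ _ (h.M2 v) z hz e he hi
        rw [hlab] at a
        have := d z.lab
        omega
  | U v t₁ t₂ ih₁ ih₂ =>
    intro l u h z hz e he hi
    have hk := h.k
    obtain ⟨b1, b2, b3, b4, b5, b6, b7⟩ := ab_U h v
    have hmt : (apU v l u).t = max l.t u.t + 1 := rfl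
    have hlab : (apU v l u).lab = v := rfl
    have d : ∀ w, deg ((Tr.U v t₁ t₂).edges l.lab u.lab) w ≥ deg (t₁.edges l.lab v) w := by
      intro w
      simp only [Tr.edges, deg_cons, deg_append]
      omega
    simp only [Tr.apexes, List.mem_cons] at hz
    rw [me_U] at he
    rcases hz with rfl | hz
    · rcases he with rfl | rfl | he
      · simp only [tm]; omega
      · simp only [tm]; omega
      · have a := (life_root t₁ _ _ (h.U1 v) e he).2 hi
        rw [hlab] at a ⊢
        have := d v
        omega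
    · have az := ab _ _ _ (h.U1 v) _ hz
      have a1 := az.t1
      have a2 := az.t2
      rcases he with rfl | rfl | he
      · simp only [tm]; omega
      · simp only [tm]; omega
      · have a := ih₁ _ _ (h.U1 v) z hz e he hi
        rw [hlab] at a
        have := d z.lab
        omega
  | D v t₁ t₂ ih₁ ih₂ =>
    intro l u h z hz e he hi
    have hk := h.k
    obtain ⟨b1, b2, b3, b4, b5, b6, b7⟩ := ab_D h v
    have hmt : (apD v l u).t = max l.t u.t + 1 := rfl
    have hlab : (apD v l u).lab = v := rfl
    have d : ∀ w, deg ((Tr.D v t₁ t₂).edges l.lab u.lab) w ≥ deg (t₁.edges v u.lab) w := by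
      intro w
      simp only [Tr.edges, deg_cons, deg_append]
      omega
    simp only [Tr.apexes, List.mem_cons] at hz
    rw [me_D] at he
    rcases hz with rfl | hz
    · rcases he with rfl | rfl | he
      · simp only [tm]; omega
      · simp only [tm]; omega
      · have a := (life_root t₁ _ _ (h.D1 v) e he).1 hi
        rw [hlab] at a ⊢
        have := d v
        omega
    · have az := ab _ _ _ (h.D1 v) _ hz
      have a1 := az.t1
      have a2 := az.t2
      rcases he with rfl | rfl | he
      · simp only [tm]; omega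
      · simp only [tm]; omega
      · have a := ih₁ _ _ (h.D1 v) z hz e he hi
        rw [hlab] at a
        have := d z.lab
        omega

end Pool.Agent.Helper4.UpLoc
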