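import Pool.Agent.Helper4.UpLoc.Main3

/-!
# The main part of a tree: labels, decomposition, the x-coordinates
-/

namespace Pool.Agent.Helper4.UpLoc

variable {V : Type}

/-- x-coordinate of a main edge -/
def X (Δ : ℤ) (e : AV V × AV V) : ℤ :=
  if e.1.k < e.2.k then 4 * tm e + 1
  else if 0 < e.2.o then (if e.2.p then 4 * (e.2.t + Δ) + 6 else 4 * e.1.t - 2)
  else (if e.1.p then 4 * (e.1.t + Δ) + 6 else 4 * e.2.t - 2)

theorem X_strip {t : Tr V} {l u : AV V} (h : Ok l u) (Δ : ℤ) {e} (he : e ∈ t.strips l u) :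
    X Δ e = 4 * tm e + 1 := if_pos (sb _ _ _ h e he).k

theorem X_blob {t : Tr V} {l u : AV V} (h : Ok l u) (Δ : ℤ) {g} (hg : g ∈ t.blobs l u) :
    X Δ (g.1, g.2.1) = if side g then 4 * ((nw g).t + Δ) + 6 else 4 * (od g).t - 2 := by
  unfold X side nw od
  have hk : g.1.k = g.2.1.k := by
    rcases gb _ _ _ h g hg with a | a
    · exact a.k
    · exact a.k
  rw [if_neg (by simp only; rw [hk]; exact lt_irrefl _)]
  by_cases h0 : 0 < g.2.1.o
  · simp only [h0, if_true]
  · simp only [h0, if_false]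

theorem tm_blob {t : Tr V} {l u : AV V} (h : Ok l u) {g} (hg : g ∈ t.blobs l u) :
    tm (g.1, g.2.1) = (nw g).t ∧ (od g).t < (nw g).t ∧ (od g).k = (nw g).k := by
  rcases gb _ _ _ h g hg with a | a
  · rw [a.nw, a.od]
    have := a.t
    refine ⟨?_, this, a.k⟩
    simp only [tm]; omega
  · rw [a.nw, a.od]
    have := a.t
    refine ⟨?_, this, a.k.symm⟩
    simp only [tm]; omega

theorem inc_blob {t : Tr V} {l u : AV V} (h : Ok l u) {g} (hg : g ∈ t.blobs l u) {z : AV V} :
    inc z (g.1, g.2.1) ↔ z = nw g ∨ z = od g := by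
  unfold inc
  rcases gb _ _ _ h g hg with a | a
  · rw [a.nw, a.od]; simp only; tauto
  · rw [a.nw, a.od]

theorem mem_me {t : Tr V} {l u : AV V} {e : AV V × AV V} :
    e ∈ t.me l u ↔ e ∈ t.strips l u ∨ ∃ g ∈ t.blobs l u, (g.1, g.2.1) = e := by
  unfold Tr.me
  rw [List.mem_append, List.mem_map]

theorem le_tm {z : AV V} {e : AV V × AV V} (h : inc z e) : z.t ≤ tm e := by
  rcases h with rfl | rfl <;> simp [tm]

/-- Standard roots. -/
def rl (a : V) : AV V := ⟨a, 0, -1, 1, false⟩
def ru (b : V) : AV V := ⟨b, 1, 0, 1, true⟩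

theorem ok_root (a b : V) : Ok (rl a) (ru b) := by
  constructor <;> simp [rl, ru]

theorem root_side {t : Tr V} {a b : V} {g} (hg : g ∈ t.blobs (rl a) (ru b)) {z : AV V}
    (hz : z = nw g ∨ z = od g) (hr : z = rl a ∨ z = ru b) : side g = true := by
  have hnw := ab _ _ _ (ok_root a b) _ (nw_mem (ok_root a b) hg)
  have h1 := ne_of_ab_t hnw
  have hz : z = od g := by
    rcases hz with rfl | hz
    · rcases hr with hr | hr
      · exact absurd hr h1.1
      · exact absurd hr h1.2
    · exact hz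
  have hlu : rl a ≠ ru b := by
    intro hh
    have := congrArg AV.k hh
    simp [rl, ru] at this
  unfold side
  rcases gb _ _ _ (ok_root a b) g hg with c | c
  · rw [c.od] at hz
    have hzu : z = ru b := by
      rcases c.m1 with m | m
      · rw [hz, m]
      · exfalso
        rw [← hz] at m
        have := ne_of_ab_t (ab _ _ _ (ok_root a b) _ m)
        rcases hr with hr | hr
        · exact this.1 hr
        · exact this.2 hr
    rw [c.nw, c.p, ← hz, hzu]
    rfl
  · rw [c.od] at hz
    have hzu : z = rl a := by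
      rcases c.m1 with m | m
      · rw [hz, m]
      · exfalso
        rw [← hz] at m
        have := ne_of_ab_t (ab _ _ _ (ok_root a b) _ m)
        rcases hr with hr | hr
        · exact this.1 hr
        · exact this.2 hr
    rw [c.nw, c.p, ← hz, hzu]
    rfl

variable [DecidableEq V]

section
variable {t : Tr V} {a b : V} {Δ : ℕ}

theorem life (hΔ : ∀ w, deg (t.edges a b) w ≤ Δ) {z : AV V} (hz : z ∈ t.vs (rl a) (ru b))
    {e} (he : e ∈ t.me (rl a) (ru b)) (hi : inc z e) : tm e ≤ z.t + Δ := by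
  simp only [Tr.vs, List.mem_cons] at hz
  rcases hz with rfl | rfl | hz
  · have h1 := (life_root t _ _ (ok_root a b) e he).1 hi
    have h2 : deg (t.edges (rl a).lab (ru b).lab) (rl a).lab ≤ Δ := hΔ a
    have h3 : max (rl a).t (ru b).t = (rl a).t := rfl
    rw [h3] at h1
    omega
  · have h1 := (life_root t _ _ (ok_root a b) e he).2 hi
    have h2 : deg (t.edges (rl a).lab (ru b).lab) (ru b).lab ≤ Δ := hΔ b
    have h3 : max (rl a).t (ru b).t = (ru b).t := rfl
    rw [h3] at h1
    omega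
  · have h1 := life_apex t _ _ (ok_root a b) z hz e he hi
    have h2 : deg (t.edges (rl a).lab (ru b).lab) z.lab ≤ Δ := hΔ z.lab
    omega

theorem X_root : X (Δ : ℤ) (rl a, ru b) = 5 := by
  simp [X, rl, ru, tm]

omit [DecidableEq V] in
theorem apex_t {z : AV V} (hz : z ∈ t.apexes (rl a) (ru b)) : 2 ≤ z.t := by
  have := (ab _ _ _ (ok_root a b) _ hz).t1
  have h : (rl a).t = 1 := rfl
  omega

omit [DecidableEq V] in
theorem root_min {e} (he : e ∈ t.me (rl a) (ru b)) : 5 < X (Δ : ℤ) e := by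
  rw [mem_me] at he
  rcases he with he | ⟨g, hg, rfl⟩
  · rw [X_strip (ok_root a b) _ he]
    have h1 := (sb _ _ _ (ok_root a b) e he).t1
    have h : (rl a).t = 1 := rfl
    omega
  · rw [X_blob (ok_root a b) _ hg]
    have h1 := apex_t (nw_mem (ok_root a b) hg)
    split_ifs with hs
    · omega
    · have h2 := od_mem (ok_root a b) hg
      have h3 : od g ∈ t.apexes (rl a) (ru b) := by
        simp only [Tr.vs, List.mem_cons] at h2
        rcases h2 with h2 | h2 | h2
        · exact absurd (root_side hg (Or.inr rfl) (Or.inl h2)) (by simpa using hs)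
        · exact absurd (root_side hg (Or.inr rfl) (Or.inr h2)) (by simpa using hs)
        · exact h2
      have h4 := apex_t h3
      omega

theorem X_bounds (hΔ : ∀ w, deg (t.edges a b) w ≤ Δ) {z : AV V} (hz : z ∈ t.vs (rl a) (ru b))
    {e} (he : e = (rl a, ru b) ∨ e ∈ t.me (rl a) (ru b)) (hi : inc z e) :
    4 * (z.t - Δ) - 4 ≤ X (Δ : ℤ) e ∧ X (Δ : ℤ) e ≤ 4 * (z.t + 2 * Δ) + 6 := by
  rcases he with rfl | he
  · rw [X_root]
    have : z.t = 1 := by
      rcases hi with rfl | rfl <;> rfl
    omega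
  · have h1 := life hΔ hz he hi
    have h2 := le_tm hi
    rcases mem_me.1 he with he' | ⟨g, hg, rfl⟩
    · rw [X_strip (ok_root a b) _ he']
      omega
    · rw [X_blob (ok_root a b) _ hg]
      obtain ⟨t1, t2, t3⟩ := tm_blob (ok_root a b) hg
      have h3 : (nw g).t ≤ (od g).t + Δ := by
        rw [← t1]
        exact life hΔ (od_mem (ok_root a b) hg) he
          ((inc_blob (ok_root a b) hg).2 (Or.inr rfl))
      rw [inc_blob (ok_root a b) hg] at hi
      rcases hi with rfl | rfl
      · split_ifs <;> omega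
      · split_ifs <;> omega

omit [DecidableEq V] in
theorem me_root_ne {e} (he : e ∈ t.me (rl a) (ru b)) : e ≠ (rl a, ru b) := by
  rintro rfl
  have h1 := root_min (Δ := 0) he
  have h2 : X ((0 : ℕ) : ℤ) (rl a, ru b) = 5 := by simp [X, rl, ru, tm]
  omega

/-- lexicographic comparison of keys -/
def klt (z z' : AV V) : Prop := z.k < z'.k ∨ (z.k = z'.k ∧ z.o < z'.o)

omit [DecidableEq V] in
theorem no_cross_blob {g} (hg : g ∈ t.blobs (rl a) (ru b)) {z : AV V}
    (hz : z ∈ t.vs (rl a) (ru b)) (h1 : klt g.1 z) (h2 : klt z g.2.1) : False := by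
  have hk : g.1.k = g.2.1.k := by
    rcases gb _ _ _ (ok_root a b) g hg with a | a
    · exact a.k
    · exact a.k
  unfold klt at h1 h2
  rw [← hk] at h2
  rcases h1 with h1 | ⟨h1, h1'⟩
  · rcases h2 with h2 | ⟨h2, h2'⟩
    · linarith
    · linarith
  · rcases h2 with h2 | ⟨h2, h2'⟩
    · linarith
    · exact blobs_adj _ _ _ (ok_root a b) g hg z hz h2 ⟨h1', h2'⟩

theorem cross_main (hΔ : ∀ w, deg (t.edges a b) w ≤ Δ) {e} (he : e ∈ t.me (rl a) (ru b))
    {z : AV V} (hz : z ∈ t.vs (rl a) (ru b)) (h1 : klt e.1 z) (h2 : klt z e.2)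
    {e₁ e₂} (he₁ : e₁ = (rl a, ru b) ∨ e₁ ∈ t.me (rl a) (ru b))
    (he₂ : e₂ = (rl a, ru b) ∨ e₂ ∈ t.me (rl a) (ru b)) (hi₁ : inc z e₁) (hi₂ : inc z e₂)
    (hx₁ : X (Δ : ℤ) e₁ ≤ X (Δ : ℤ) e) (hx₂ : X (Δ : ℤ) e ≤ X (Δ : ℤ) e₂) :
    e ∈ t.strips (rl a) (ru b) ∧ (z.k = e.1.k ∨ z.k = e.2.k) ∧
      z.t - (2 * Δ + 1) ≤ tm e ∧ tm e ≤ z.t + (2 * Δ + 1) := by
  rcases mem_me.1 he with he' | ⟨g, hg, rfl⟩
  swap
  · exact (no_cross_blob hg hz h1 h2).elim
  refine ⟨he', ?_, ?_⟩
  · by_contra hcon
    push Not at hcon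
    have k1 : e.1.k < z.k := by
      rcases h1 with h1 | h1
      · exact h1
      · exact absurd h1.1.symm hcon.1
    have k2 : z.k < e.2.k := by
      rcases h2 with h2 | h2
      · exact h2
      · exact absurd h2.1 hcon.2
    have s := sb _ _ _ (ok_root a b) e he'
    have apex : ∀ y ∈ t.vs (rl a) (ru b), e.1.k < y.k → y.k < e.2.k →
        tm e < y.t := by
      intro y hy y1 y2
      simp only [Tr.vs, List.mem_cons] at hy
      rcases hy with rfl | rfl | hy
      · have := s.k1; linarith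
      · have := s.k2; linarith
      · exact strips_excl _ _ _ (ok_root a b) e he' y hy y1 y2
    have hzt := apex z hz k1 k2
    rw [X_strip (ok_root a b) _ he'] at hx₁
    rcases he₁ with rfl | he₁
    · rcases hi₁ with rfl | rfl
      · have := s.k1; simp only at k1; linarith
      · have := s.k2; simp only at k2; linarith
    · have h3 := le_tm hi₁
      rcases mem_me.1 he₁ with he₁' | ⟨g, hg, rfl⟩
      · rw [X_strip (ok_root a b) _ he₁'] at hx₁
        omega
      · rw [X_blob (ok_root a b) _ hg] at hx₁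
        obtain ⟨t1, t2, t3⟩ := tm_blob (ok_root a b) hg
        rw [t1] at h3
        have hodk : (od g).k = z.k := by
          rw [inc_blob (ok_root a b) hg] at hi₁
          rcases hi₁ with rfl | rfl
          · exact t3
          · rfl
        have h4 := apex (od g) (od_mem (ok_root a b) hg) (by rw [hodk]; exact k1)
          (by rw [hodk]; exact k2)
        split_ifs at hx₁ <;> omega
  · have b1 := (X_bounds hΔ hz he₁ hi₁).1
    have b2 := (X_bounds hΔ hz he₂ hi₂).2
    rw [X_strip (ok_root a b) _ he'] at hx₁ hx₂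
    constructor <;> omega

/-- The side property of blob edges. -/
theorem blob_side (hΔ : ∀ w, deg (t.edges a b) w ≤ Δ) {g} (hg : g ∈ t.blobs (rl a) (ru b))
    {e} (he : e = (rl a, ru b) ∨ e ∈ t.me (rl a) (ru b)) (hne : e ≠ (g.1, g.2.1)) {z : AV V}
    (hz : inc z (g.1, g.2.1)) (hz' : inc z e) :
    (side g = true → X (Δ : ℤ) e < X (Δ : ℤ) (g.1, g.2.1)) ∧
    (side g = false → X (Δ : ℤ) (g.1, g.2.1) < X (Δ : ℤ) e) := by
  obtain ⟨t1, t2, t3⟩ := tm_blob (ok_root a b) hg
  have hgm : (g.1, g.2.1) ∈ t.me (rl a) (ru b) := mem_me.2 (Or.inr ⟨g, hg, rfl⟩)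
  have hzv := inc_vs (ok_root a b) hgm hz
  rw [inc_blob (ok_root a b) hg] at hz
  have hzt : (od g).t ≤ z.t ∧ z.t ≤ (nw g).t := by
    rcases hz with rfl | rfl <;> omega
  have hnt := apex_t (nw_mem (ok_root a b) hg)
  refine ⟨fun hs => ?_, fun hs => ?_⟩
  · rw [X_blob (ok_root a b) _ hg, if_pos hs]
    rcases he with rfl | he
    · rw [X_root]; omega
    · have h1 := life hΔ hzv he hz'
      rcases mem_me.1 he with he' | ⟨g', hg', rfl⟩
      · rw [X_strip (ok_root a b) _ he']; omega
      · obtain ⟨t1', t2', t3'⟩ := tm_blob (ok_root a b) hg'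
        have hgne : g ≠ g' := by
          rintro rfl; exact hne rfl
        have hsn := side_ne (ok_root a b) hg hg' hgne hz ((inc_blob (ok_root a b) hg').1 hz')
        rw [hs] at hsn
        rw [X_blob (ok_root a b) _ hg', if_neg (by intro hh; exact hsn hh.symm)]
        omega
  · rw [X_blob (ok_root a b) _ hg, if_neg (by rw [hs]; simp)]
    have h2 := le_tm hz'
    rcases he with rfl | he
    · exfalso
      have := root_side hg hz (by
        rcases hz' with h | h
        · exact Or.inl h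
        · exact Or.inr h)
      rw [hs] at this
      exact absurd this (by simp)
    · rcases mem_me.1 he with he' | ⟨g', hg', rfl⟩
      · rw [X_strip (ok_root a b) _ he']; omega
      · obtain ⟨t1', t2', t3'⟩ := tm_blob (ok_root a b) hg'
        have hgne : g ≠ g' := by
          rintro rfl; exact hne rfl
        have hsn := side_ne (ok_root a b) hg hg' hgne hz ((inc_blob (ok_root a b) hg').1 hz')
        rw [hs] at hsn
        have hst : side g' = true := by
          cases h : side g'
          · exact absurd h.symm hsn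
          · rfl
        rw [X_blob (ok_root a b) _ hg', if_pos hst]
        omega

end

end Pool.Agent.Helper4.UpLoc
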