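import Pool.Agent.Helper4.UpLoc.Main4

/-!
# The main part of a tree: decomposition of the tree, the main representation
-/

namespace Pool.Agent.Helper4.UpLoc

variable {V : Type}

def labs (e : AV V × AV V) : V × V := (e.1.lab, e.2.lab)

theorem apexes_sub (t : Tr V) : ∀ l u : AV V, ((t.apexes l u).map AV.lab).Sublist t.labels := by
  induction t with
  | leaf => intro l u; simp [Tr.apexes, Tr.labels]
  | M v t₁ t₂ ih₁ ih₂ =>
    intro l u
    simp only [Tr.apexes, Tr.labels, List.map_cons, List.map_append]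
    exact List.Sublist.cons_cons _ (List.Sublist.append (ih₁ _ _) (ih₂ _ _))
  | U v t₁ t₂ ih₁ ih₂ =>
    intro l u
    simp only [Tr.apexes, Tr.labels, List.map_cons]
    exact List.Sublist.cons_cons _ ((ih₁ _ _).trans (List.sublist_append_left _ _))
  | D v t₁ t₂ ih₁ ih₂ =>
    intro l u
    simp only [Tr.apexes, Tr.labels, List.map_cons]
    exact List.Sublist.cons_cons _ ((ih₁ _ _).trans (List.sublist_append_left _ _))

theorem labels_perm (t : Tr V) : ∀ l u : AV V, (t.labels).Perm
    ((t.apexes l u).map AV.lab ++ (t.blobs l u).flatMap fun g => g.2.2.labels) := by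
  classical
  induction t with
  | leaf => intro l u; simp [Tr.apexes, Tr.labels, Tr.blobs]
  | M v t₁ t₂ ih₁ ih₂ =>
    intro l u
    rw [List.perm_iff_count]
    intro w
    have h1 := (List.perm_iff_count.1 (ih₁ l (apM v l u))) w
    have h2 := (List.perm_iff_count.1 (ih₂ (apM v l u) u)) w
    have hlab : (apM v l u).lab = v := rfl
    simp only [Tr.apexes, Tr.labels, Tr.blobs, List.map_cons, List.map_append, List.flatMap_append,
      List.count_append, List.cons_append, List.count_cons, hlab] at h1 h2 ⊢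
    omega
  | U v t₁ t₂ ih₁ ih₂ =>
    intro l u
    rw [List.perm_iff_count]
    intro w
    have h1 := (List.perm_iff_count.1 (ih₁ l (apU v l u))) w
    have hlab : (apU v l u).lab = v := rfl
    simp only [Tr.apexes, Tr.labels, Tr.blobs, List.map_cons, List.map_append, List.flatMap_append,
      List.flatMap_cons, List.count_append, List.cons_append, List.count_cons, hlab] at h1 ⊢
    omega
  | D v t₁ t₂ ih₁ ih₂ =>
    intro l u
    rw [List.perm_iff_count]
    intro w
    have h1 := (List.perm_iff_count.1 (ih₁ (apD v l u) u)) w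
    have hlab : (apD v l u).lab = v := rfl
    simp only [Tr.apexes, Tr.labels, Tr.blobs, List.map_cons, List.map_append, List.flatMap_append,
      List.flatMap_cons, List.count_append, List.cons_append, List.count_cons, hlab] at h1 ⊢
    omega

theorem blobs_size (t : Tr V) : ∀ l u : AV V, ∀ g ∈ t.blobs l u,
    g.2.2.labels.length < t.labels.length := by
  induction t with
  | leaf => intro l u g hg; simp [Tr.blobs] at hg
  | M v t₁ t₂ ih₁ ih₂ =>
    intro l u g hg
    simp only [Tr.blobs, List.mem_append] at hg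
    simp only [Tr.labels, List.length_cons, List.length_append]
    rcases hg with hg | hg
    · have := ih₁ _ _ g hg; omega
    · have := ih₂ _ _ g hg; omega
  | U v t₁ t₂ ih₁ ih₂ =>
    intro l u g hg
    simp only [Tr.blobs, List.mem_cons] at hg
    simp only [Tr.labels, List.length_cons, List.length_append]
    rcases hg with rfl | hg
    · simp only; omega
    · have := ih₁ _ _ g hg; omega
  | D v t₁ t₂ ih₁ ih₂ =>
    intro l u g hg
    simp only [Tr.blobs, List.mem_cons] at hg
    simp only [Tr.labels, List.length_cons, List.length_append]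
    rcases hg with rfl | hg
    · simp only; omega
    · have := ih₁ _ _ g hg; omega

/-- The edges of the tree: main edges and the edges of the blobs. -/
theorem edges_perm (t : Tr V) : ∀ l u : AV V, (t.edges l.lab u.lab).Perm
    ((t.me l u).map labs ++ (t.blobs l u).flatMap fun g => g.2.2.edges g.1.lab g.2.1.lab) := by
  classical
  induction t with
  | leaf => intro l u; simp [Tr.edges, Tr.me, Tr.strips, Tr.blobs]
  | M v t₁ t₂ ih₁ ih₂ =>
    intro l u
    rw [List.perm_iff_count]
    intro w
    have h1 := (List.perm_iff_count.1 (ih₁ l (apM v l u))) w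
    have h2 := (List.perm_iff_count.1 (ih₂ (apM v l u) u)) w
    have hlab : (apM v l u).lab = v := rfl
    simp only [Tr.edges, Tr.me, Tr.strips, Tr.blobs, List.map_cons, List.map_append,
      List.flatMap_append, List.count_append, List.cons_append, List.count_cons, hlab,
      List.map_map, labs] at h1 h2 ⊢
    omega
  | U v t₁ t₂ ih₁ ih₂ =>
    intro l u
    rw [List.perm_iff_count]
    intro w
    have h1 := (List.perm_iff_count.1 (ih₁ l (apU v l u))) w
    have hlab : (apU v l u).lab = v := rfl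
    simp only [Tr.edges, Tr.me, Tr.strips, Tr.blobs, List.map_cons, List.map_append,
      List.flatMap_append, List.flatMap_cons, List.count_append, List.cons_append,
      List.count_cons, hlab, List.map_map, labs] at h1 ⊢
    omega
  | D v t₁ t₂ ih₁ ih₂ =>
    intro l u
    rw [List.perm_iff_count]
    intro w
    have h1 := (List.perm_iff_count.1 (ih₁ (apD v l u) u)) w
    have hlab : (apD v l u).lab = v := rfl
    simp only [Tr.edges, Tr.me, Tr.strips, Tr.blobs, List.map_cons, List.map_append,
      List.flatMap_append, List.flatMap_cons, List.count_append, List.cons_append,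
      List.count_cons, hlab, List.map_map, labs] at h1 ⊢
    omega

/-- rank compression -/
theorem compressL {A L : Type} [Fintype A] [LinearOrder L] (k : A → L) :
    ∃ c : A → ℤ, ∀ a b, c a < c b ↔ k a < k b := by
  classical
  refine ⟨fun a => ((Finset.univ.filter (fun b => k b < k a)).card : ℤ), ?_⟩
  have mono : ∀ a b, k a ≤ k b → (Finset.univ.filter (fun d => k d < k a)) ⊆
      (Finset.univ.filter (fun d => k d < k b)) := by
    intro a b h d hd
    simp only [Finset.mem_filter, Finset.mem_univ, true_and] at hd ⊢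
    exact lt_of_lt_of_le hd h
  intro a b
  constructor
  · intro h
    by_contra hc
    have := Finset.card_le_card (mono b a (not_lt.1 hc))
    simp only at h
    omega
  · intro h
    have hs : (Finset.univ.filter (fun d => k d < k a)) ⊂
        (Finset.univ.filter (fun d => k d < k b)) := by
      rw [Finset.ssubset_iff_of_subset (mono a b h.le)]
      exact ⟨a, by simp [h], by simp⟩
    have := Finset.card_lt_card hs
    simp only
    omega

section
variable [DecidableEq V] [Fintype V] {t : Tr V} {a b : V} {Δ : ℕ}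

/-- The main edge set. -/
def E0 (t : Tr V) (a b : V) : Set (V × V) :=
  {e | e = (a, b) ∨ e ∈ (t.me (rl a) (ru b)).map labs}

omit [DecidableEq V] [Fintype V] in
theorem exists_F (hnd : (a :: b :: t.labels).Nodup) :
    ∃ F : V → AV V, (∀ z ∈ t.vs (rl a) (ru b), F z.lab = z) := by
  classical
  have hnd' : ((t.vs (rl a) (ru b)).map AV.lab).Nodup := by
    unfold Tr.vs
    simp only [List.map_cons]
    refine List.Nodup.sublist ?_ hnd
    exact List.Sublist.cons_cons _ (List.Sublist.cons_cons _ (apexes_sub _ _ _))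
  have hinj := List.inj_on_of_nodup_map hnd'
  refine ⟨fun v => if h : ∃ z ∈ t.vs (rl a) (ru b), z.lab = v then h.choose else rl a, ?_⟩
  intro z hz
  have h : ∃ y ∈ t.vs (rl a) (ru b), y.lab = z.lab := ⟨z, hz, rfl⟩
  simp only [h, dif_pos]
  exact hinj h.choose_spec.1 hz h.choose_spec.2

theorem main_rep (hnd : (a :: b :: t.labels).Nodup) (hΔ : ∀ w, deg (t.edges a b) w ≤ Δ) :
    ∃ (h : V → ℤ) (x : V × V → ℤ),
      Set.InjOn h (verts (E0 t a b)) ∧ Set.InjOn x (E0 t a b) ∧
      (∀ e ∈ E0 t a b, h e.1 < h e.2) ∧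
      (∀ w, {e | e ∈ E0 t a b ∧ Cross h x (E0 t a b) e w}.ncard ≤
        (8 * Δ + 6) * deg ((t.me (rl a) (ru b)).map labs) w) ∧
      (∀ e ∈ E0 t a b, {w | Cross h x (E0 t a b) e w}.ncard ≤ 24 * Δ + 18) ∧
      (∀ e ∈ E0 t a b, e ≠ (a, b) → x (a, b) < x e) ∧
      (∀ g ∈ t.blobs (rl a) (ru b), (∀ z, ¬ Cross h x (E0 t a b) (g.1.lab, g.2.1.lab) z) ∧
        (∀ e ∈ E0 t a b, e ≠ (g.1.lab, g.2.1.lab) → (Inc g.1.lab e ∨ Inc g.2.1.lab e) →
          (side g = true → x e < x (g.1.lab, g.2.1.lab)) ∧
          (side g = false → x (g.1.lab, g.2.1.lab) < x e))) := by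
  classical
  obtain ⟨F, hF⟩ := exists_F hnd
  have hok := ok_root a b
  obtain ⟨h, hh⟩ := compressL (fun v : V => toLex ((F v).k, (F v).o))
  have hh' : ∀ v v', h v < h v' ↔ klt (F v) (F v') := by
    intro v v'
    rw [hh, Prod.Lex.toLex_lt_toLex]
    rfl
  obtain ⟨x, hx⟩ := compressL (fun e : V × V =>
    toLex (X (Δ : ℤ) (F e.1, F e.2), (Fintype.equivFin (V × V)) e))
  have hx' : ∀ e e', x e < x e' ↔ X (Δ : ℤ) (F e.1, F e.2) < X (Δ : ℤ) (F e'.1, F e'.2) ∨
      (X (Δ : ℤ) (F e.1, F e.2) = X (Δ : ℤ) (F e'.1, F e'.2) ∧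
        (Fintype.equivFin (V × V)) e < (Fintype.equivFin (V × V)) e') := by
    intro v v'
    rw [hx, Prod.Lex.toLex_lt_toLex]
  have hx1 : ∀ e e', X (Δ : ℤ) (F e.1, F e.2) < X (Δ : ℤ) (F e'.1, F e'.2) → x e < x e' :=
    fun e e' hlt => (hx' e e').2 (Or.inl hlt)
  have hx2 : ∀ e e', x e < x e' → X (Δ : ℤ) (F e.1, F e.2) ≤ X (Δ : ℤ) (F e'.1, F e'.2) := by
    intro e e' hlt
    rcases (hx' e e').1 hlt with h1 | h1
    · exact h1.le
    · exact h1.1.le
  -- root labels
  have hFa : F a = rl a := hF (rl a) (by simp [Tr.vs])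
  have hFb : F b = ru b := hF (ru b) (by simp [Tr.vs])
  -- main edges
  have hme : ∀ e ∈ (t.me (rl a) (ru b)).map labs,
      (F e.1, F e.2) ∈ t.me (rl a) (ru b) ∧ labs (F e.1, F e.2) = e := by
    intro e he
    rw [List.mem_map] at he
    obtain ⟨ε, hε, rfl⟩ := he
    have hv := me_vs hok hε
    have e1 : F (labs ε).1 = ε.1 := hF _ hv.1
    have e2 : F (labs ε).2 = ε.2 := hF _ hv.2
    rw [e1, e2]
    exact ⟨hε, rfl⟩
  have hE : ∀ e ∈ E0 t a b, (F e.1, F e.2) = (rl a, ru b) ∨
      (F e.1, F e.2) ∈ t.me (rl a) (ru b) := by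
    rintro e (rfl | he)
    · left; simp only [hFa, hFb]
    · right; exact (hme e he).1
  have hEv : ∀ e ∈ E0 t a b, F e.1 ∈ t.vs (rl a) (ru b) ∧ (F e.1).lab = e.1 ∧
      F e.2 ∈ t.vs (rl a) (ru b) ∧ (F e.2).lab = e.2 := by
    rintro e (rfl | he)
    · simp only [hFa, hFb]
      simp [Tr.vs, rl, ru]
    · have h1 := hme e he
      have h2 := me_vs hok h1.1
      exact ⟨h2.1, congrArg Prod.fst h1.2, h2.2, congrArg Prod.snd h1.2⟩
  have hEinj : ∀ e ∈ E0 t a b, ∀ e' ∈ E0 t a b, F e.1 = F e'.1 → F e.2 = F e'.2 → e = e' := by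
    intro e he e' he' h1 h2
    have a1 := hEv e he
    have a2 := hEv e' he'
    ext
    · rw [← a1.2.1, h1, a2.2.1]
    · rw [← a1.2.2.2, h2, a2.2.2.2]
  have hvs : ∀ w ∈ verts (E0 t a b), F w ∈ t.vs (rl a) (ru b) ∧ (F w).lab = w := by
    rintro w ⟨e, he, rfl | rfl⟩
    · exact ⟨(hEv e he).1, (hEv e he).2.1⟩
    · exact ⟨(hEv e he).2.2.1, (hEv e he).2.2.2⟩
  have hinc : ∀ w e, Inc w e → inc (F w) (F e.1, F e.2) := by
    rintro w e (rfl | rfl)
    · exact Or.inl rfl
    · exact Or.inr rfl
  have hmin : ∀ e ∈ E0 t a b, e ≠ (a, b) → x (a, b) < x e := by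
    intro e he hne
    apply hx1
    simp only [hFa, hFb]
    rw [X_root]
    rcases he with he | he
    · exact absurd he hne
    · exact root_min (hme e he).1
  have hroot : ∀ e ∈ E0 t a b, (F e.1, F e.2) = (rl a, ru b) → e = (a, b) := by
    intro e he h1
    apply hEinj e he (a, b) (Or.inl rfl)
    · rw [hFa]; exact congrArg Prod.fst h1
    · rw [hFb]; exact congrArg Prod.snd h1
  -- the crossing analysis
  have hcross : ∀ e ∈ E0 t a b, ∀ w, Cross h x (E0 t a b) e w →
      F w ∈ t.vs (rl a) (ru b) ∧ (F w).lab = w ∧ (F e.1, F e.2) ∈ t.me (rl a) (ru b) ∧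
      (F e.1, F e.2) ∈ t.strips (rl a) (ru b) ∧ ((F w).k = (F e.1).k ∨ (F w).k = (F e.2).k) ∧
      (F w).t - (2 * Δ + 1) ≤ tm (F e.1, F e.2) ∧ tm (F e.1, F e.2) ≤ (F w).t + (2 * Δ + 1) := by
    rintro e he w ⟨hn1, hn2, hh1, hh2, e₁, he₁, e₂, he₂, hi₁, hi₂, hx₁, hx₂⟩
    have hw := hvs w ⟨e₁, he₁, hi₁⟩
    have hem : (F e.1, F e.2) ∈ t.me (rl a) (ru b) := by
      rcases hE e he with h1 | h1
      · exfalso
        have h2 := hroot e he h1
        by_cases h3 : e₁ = (a, b)
        · rw [h3, h2] at hx₁; exact lt_irrefl _ hx₁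
        · have := hmin e₁ he₁ h3
          rw [h2] at hx₁
          exact lt_asymm this hx₁
      · exact h1
    have hc := cross_main hΔ hem hw.1 ((hh' _ _).1 hh1) ((hh' _ _).1 hh2) (hE e₁ he₁) (hE e₂ he₂)
      (hinc _ _ hi₁) (hinc _ _ hi₂) (hx2 _ _ hx₁) (hx2 _ _ hx₂)
    exact ⟨hw.1, hw.2, hem, hc.1, hc.2.1, hc.2.2.1, hc.2.2.2⟩
  refine ⟨h, x, ?_, ?_, ?_, ?_, ?_, hmin, ?_⟩
  · -- InjOn h
    intro w hw w' hw' heq
    have h1 := hvs w hw
    have h2 := hvs w' hw'
    have n1 : ¬ klt (F w) (F w') := fun hc => absurd ((hh' _ _).2 hc) (by rw [heq]; exact lt_irrefl _)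
    have n2 : ¬ klt (F w') (F w) := fun hc => absurd ((hh' _ _).2 hc) (by rw [heq]; exact lt_irrefl _)
    unfold klt at n1 n2
    push Not at n1 n2
    have hk : (F w).k = (F w').k := le_antisymm n2.1 n1.1
    have ho : (F w).o = (F w').o := le_antisymm (n2.2 hk.symm) (n1.2 hk)
    have := vs_inj t hok h1.1 h2.1 hk ho
    rw [← h1.2, this, h2.2]
  · -- InjOn x
    intro e _ e' _ heq
    by_contra hne
    have h3 : (Fintype.equivFin (V × V)) e ≠ (Fintype.equivFin (V × V)) e' :=
      fun hc => hne ((Fintype.equivFin (V × V)).injective hc)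
    rcases lt_trichotomy (X (Δ : ℤ) (F e.1, F e.2)) (X (Δ : ℤ) (F e'.1, F e'.2)) with h1 | h1 | h1
    · have := hx1 _ _ h1; omega
    · rcases lt_or_gt_of_ne h3 with h4 | h4
      · have := (hx' e e').2 (Or.inr ⟨h1, h4⟩); omega
      · have := (hx' e' e).2 (Or.inr ⟨h1.symm, h4⟩); omega
    · have := hx1 _ _ h1; omega
  · -- monotone
    intro e he
    rw [hh']
    rcases hE e he with h1 | h1
    · have e1 := congrArg Prod.fst h1
      have e2 := congrArg Prod.snd h1
      simp only at e1 e2
      rw [e1, e2]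
      left; exact hok.k
    · rcases mem_me.1 h1 with h2 | ⟨g, hg, hge⟩
      · left; exact (sb _ _ _ hok _ h2).k
      · have e1 := congrArg Prod.fst hge
        have e2 := congrArg Prod.snd hge
        simp only at e1 e2
        rw [← e1, ← e2]
        right
        rcases gb _ _ _ hok g hg with c | c
        · exact ⟨c.k, c.o1⟩
        · exact ⟨c.k, c.o1⟩
  · -- crossings of a bar
    intro w
    by_cases hS : {e | e ∈ E0 t a b ∧ Cross h x (E0 t a b) e w} = ∅
    · rw [hS]; simp
    · obtain ⟨e₀, he₀, hc₀⟩ := Set.nonempty_iff_ne_empty.2 hS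
      have hd : 1 ≤ deg ((t.me (rl a) (ru b)).map labs) w := by
        obtain ⟨hn1, hn2, hh1, hh2, e₁, he₁, e₂, he₂, hi₁, hi₂, hx₁, hx₂⟩ := hc₀
        have hne : e₂ ≠ (a, b) := by
          intro hc
          rw [hc] at hx₂
          by_cases h3 : e₀ = (a, b)
          · rw [h3] at hx₂; exact lt_irrefl _ hx₂
          · exact lt_asymm (hmin e₀ he₀ h3) hx₂
        have he₂' : e₂ ∈ (t.me (rl a) (ru b)).map labs := he₂.resolve_left hne
        unfold deg
        rw [Nat.one_le_iff_ne_zero, ← Nat.pos_iff_ne_zero, List.countP_pos_iff]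
        exact ⟨e₂, he₂', by simpa using hi₂⟩
      refine le_trans ?_ (Nat.le_mul_of_pos_right _ hd)
      -- injection
      let T : Finset (Bool × ℤ) := Finset.univ ×ˢ
        Finset.Icc ((F w).t - (2 * Δ + 1)) ((F w).t + (2 * Δ + 1))
      have hT : T.card = 8 * Δ + 6 := by
        simp only [T, Finset.card_product, Finset.card_univ, Fintype.card_bool, Int.card_Icc]
        have : ((F w).t + (2 * Δ + 1) + 1 - ((F w).t - (2 * Δ + 1))).toNat = 4 * Δ + 3 := by
          have h1 : ((F w).t + (2 * Δ + 1) + 1 - ((F w).t - (2 * Δ + 1))) =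
            ((4 * Δ + 3 : ℕ) : ℤ) := by push_cast; ring
          rw [h1, Int.toNat_natCast]
        rw [this]; ring
      rw [← hT, ← Set.ncard_coe_finset]
      refine Set.ncard_le_ncard_of_injOn
        (fun e => (decide ((F w).k = (F e.1).k), tm (F e.1, F e.2))) ?_ ?_ (Finset.finite_toSet _)
      · rintro e ⟨he, hc⟩
        obtain ⟨c1, c2, c3, c4, c5, c6, c7⟩ := hcross e he w hc
        simp only [T, Finset.coe_product, Finset.coe_univ, Set.mem_prod, Set.mem_univ, true_and,
          Finset.coe_Icc, Set.mem_Icc]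
        exact ⟨c6, c7⟩
      · rintro e ⟨he, hc⟩ e' ⟨he', hc'⟩ heq
        obtain ⟨c1, c2, c3, c4, c5, c6, c7⟩ := hcross e he w hc
        obtain ⟨d1, d2, d3, d4, d5, d6, d7⟩ := hcross e' he' w hc'
        simp only [Prod.mk.injEq, decide_eq_decide] at heq
        obtain ⟨q1, q2⟩ := heq
        by_contra hne
        have hne' : (F e.1, F e.2) ≠ (F e'.1, F e'.2) := by
          intro hc
          exact hne (hEinj e he e' he' (congrArg Prod.fst hc) (congrArg Prod.snd hc))
        have htd := (strips_pairwise t _ _ hok).forall c4 d4 hne'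
        by_cases hk : (F w).k = (F e.1).k
        · exact htd.1 (hk.symm.trans (q1.1 hk)) q2
        · have k1 := c5.resolve_left hk
          have k2 := d5.resolve_left (fun hc => hk (q1.2 hc))
          exact htd.2 (k1.symm.trans k2) q2
  · -- bars crossing an edge
    intro e he
    let T : Finset (Bool × Fin 3 × ℤ) := Finset.univ ×ˢ Finset.univ ×ˢ
        Finset.Icc (tm (F e.1, F e.2) - (2 * Δ + 1)) (tm (F e.1, F e.2) + (2 * Δ + 1))
    have hT : T.card = 24 * Δ + 18 := by
      simp only [T, Finset.card_product, Finset.card_univ, Fintype.card_bool, Int.card_Icc,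
        Fintype.card_fin]
      have : (tm (F e.1, F e.2) + (2 * Δ + 1) + 1 - (tm (F e.1, F e.2) - (2 * Δ + 1))).toNat =
          4 * Δ + 3 := by
        have h1 : (tm (F e.1, F e.2) + (2 * Δ + 1) + 1 - (tm (F e.1, F e.2) - (2 * Δ + 1))) =
          ((4 * Δ + 3 : ℕ) : ℤ) := by push_cast; ring
        rw [h1, Int.toNat_natCast]
      rw [this]; ring
    rw [← hT, ← Set.ncard_coe_finset]
    have ho3 : ∀ z ∈ t.vs (rl a) (ru b), z.o = 0 ∨ z.o = z.t ∨ z.o = -z.t := by
      intro z hz
      simp only [Tr.vs, List.mem_cons] at hz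
      rcases hz with rfl | rfl | hz
      · right; right; rfl
      · left; rfl
      · exact (ab _ _ _ hok _ hz).o3
    refine Set.ncard_le_ncard_of_injOn
      (fun w => (decide ((F w).k = (F e.1).k),
        (if (F w).o = 0 then (0 : Fin 3) else if (F w).o = (F w).t then 1 else 2), (F w).t))
      ?_ ?_ (Finset.finite_toSet _)
    · rintro w hc
      obtain ⟨c1, c2, c3, c4, c5, c6, c7⟩ := hcross e he w hc
      simp only [T, Finset.coe_product, Finset.coe_univ, Set.mem_prod, Set.mem_univ, true_and,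
        Finset.coe_Icc, Set.mem_Icc]
      constructor <;> omega
    · rintro w hc w' hc' heq
      obtain ⟨c1, c2, c3, c4, c5, c6, c7⟩ := hcross e he w hc
      obtain ⟨d1, d2, d3, d4, d5, d6, d7⟩ := hcross e he w' hc'
      simp only [Prod.mk.injEq, decide_eq_decide] at heq
      obtain ⟨q1, q2, q3⟩ := heq
      have hk : (F w).k = (F w').k := by
        by_cases hk : (F w).k = (F e.1).k
        · exact hk.trans (q1.1 hk).symm
        · have k1 := c5.resolve_left hk
          have k2 := d5.resolve_left (fun hc => hk (q1.2 hc))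
          exact k1.trans k2.symm
      have ho : (F w).o = (F w').o := by
        have o1 := ho3 _ c1
        have o2 := ho3 _ d1
        by_cases z1 : (F w).o = 0
        · by_cases z2 : (F w').o = 0
          · rw [z1, z2]
          · rw [if_pos z1, if_neg z2] at q2
            split_ifs at q2 <;> exact absurd q2 (by decide)
        · by_cases z2 : (F w').o = 0
          · rw [if_neg z1, if_pos z2] at q2
            split_ifs at q2 <;> exact absurd q2 (by decide)
          · rw [if_neg z1, if_neg z2] at q2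
            by_cases y1 : (F w).o = (F w).t
            · by_cases y2 : (F w').o = (F w').t
              · rw [y1, y2, q3]
              · rw [if_pos y1, if_neg y2] at q2
                exact absurd q2 (by decide)
            · by_cases y2 : (F w').o = (F w').t
              · rw [if_neg y1, if_pos y2] at q2
                exact absurd q2 (by decide)
              · have o1' := (o1.resolve_left z1).resolve_left y1
                have o2' := (o2.resolve_left z2).resolve_left y2
                rw [o1', o2', q3]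
      have := vs_inj t hok c1 d1 hk ho
      rw [← c2, this, d2]
  · -- blobs
    intro g hg
    have hgm : (g.1, g.2.1) ∈ t.me (rl a) (ru b) := mem_me.2 (Or.inr ⟨g, hg, rfl⟩)
    have hgv := me_vs hok hgm
    have f1 : F g.1.lab = g.1 := hF _ hgv.1
    have f2 : F g.2.1.lab = g.2.1 := hF _ hgv.2
    refine ⟨?_, ?_⟩
    · rintro z ⟨hn1, hn2, hh1, hh2, e₁, he₁, e₂, he₂, hi₁, hi₂, hx₁, hx₂⟩
      have hw := hvs z ⟨e₁, he₁, hi₁⟩
      rw [hh'] at hh1 hh2
      simp only [f1, f2] at hh1 hh2
      exact no_cross_blob hg hw.1 hh1 hh2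
    · intro e he hne hinc'
      have hne' : (F e.1, F e.2) ≠ (g.1, g.2.1) := by
        intro hc
        apply hne
        have a1 := hEv e he
        have e1 := congrArg Prod.fst hc
        have e2 := congrArg Prod.snd hc
        simp only at e1 e2
        rw [e1, e2] at a1
        ext
        · exact a1.2.1.symm
        · exact a1.2.2.2.symm
      have hz : ∃ z, inc z (g.1, g.2.1) ∧ inc z (F e.1, F e.2) := by
        rcases hinc' with h1 | h1
        · refine ⟨g.1, Or.inl rfl, ?_⟩
          have := hinc _ _ h1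
          rwa [f1] at this
        · refine ⟨g.2.1, Or.inr rfl, ?_⟩
          have := hinc _ _ h1
          rwa [f2] at this
      obtain ⟨z, hz1, hz2⟩ := hz
      have hb := blob_side hΔ hg (hE e he) hne' hz1 hz2
      refine ⟨fun hs => ?_, fun hs => ?_⟩
      · apply hx1; simp only [f1, f2]; exact hb.1 hs
      · apply hx1; simp only [f1, f2]; exact hb.2 hs

end

end Pool.Agent.Helper4.UpLoc
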